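import Pool.Agent.W5h80.JO.L4

/-!
# The twisted averages of the Liouville function
-/

set_option autoImplicit false
set_option maxHeartbeats 4000000

open Complex MeasureTheory Filter Topology Set
open H313.TK
open Pool.Agent.W5h38.ML (ll LL Zr za Z_dec liou ll_meas abs_ll_le zeta_half_ne)

namespace Pool.Agent.W5h80.JO

noncomputable section

/-- the main part of the twisted building block -/
def sp (ρ : ℂ) : ℝ → ℂ := (Ici (0:ℝ)).indicator (fun z : ℝ => qh ρ * cexp (ρ * z))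

/-- the remainder of the twisted building block -/
def rp (ρ : ℂ) (z : ℝ) : ℂ := Ist ρ qc z - sp ρ z

theorem sp_meas (ρ : ℂ) : Measurable (sp ρ) :=
  Measurable.indicator (by fun_prop) measurableSet_Ici

theorem rp_meas (ρ : ℂ) (h1 : ρ.re < 2) : Measurable (rp ρ) :=
  (Ist_QQ qc_QQ ρ h1).cont.measurable.sub (sp_meas ρ)

theorem rp_bd (ρ : ℂ) (h0 : 0 < ρ.re) (h1 : ρ.re < 1) : ∃ C : ℝ, 0 ≤ C ∧ ∀ z, ‖rp ρ z‖ ≤ C * Real.exp (-(2 * |z|)) := by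
  obtain ⟨C, hC, hb⟩ := (Ist_QQ qc_QQ ρ (by linarith)).bd 0
  refine ⟨C + 24, by positivity, fun z => ?_⟩
  have he := Real.exp_pos (-(2 * |z|))
  rcases le_or_gt 0 z with hz | hz
  · have h5 := q1_asy ρ h0 h1 z hz
    have h6 : rp ρ z = cexp (ρ * z) * (cexp (-ρ * z) * Ist ρ qc z - qh ρ) := by
      unfold rp sp
      rw [indicator_of_mem (show z ∈ Ici (0:ℝ) from hz), mul_sub, tw_cancel]
      ring
    rw [h6, norm_mul, norm_tw', abs_of_nonneg hz]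
    calc Real.exp (ρ.re * z) * ‖cexp (-ρ * z) * Ist ρ qc z - qh ρ‖ ≤
          Real.exp (ρ.re * z) * (24 * Real.exp (-((ρ.re + 2) * z))) := mul_le_mul_of_nonneg_left h5 (Real.exp_pos _).le
      _ = 24 * (Real.exp (ρ.re * z) * Real.exp (-((ρ.re + 2) * z))) := by ring
      _ = 24 * Real.exp (-(2 * z)) := by rw [← Real.exp_add]; congr 2; ring
      _ ≤ (C + 24) * Real.exp (-(2 * z)) := mul_le_mul_of_nonneg_right (by linarith) (Real.exp_pos _).le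
  · have h6 : rp ρ z = Ist ρ qc z := by
      unfold rp sp
      rw [indicator_of_notMem (show z ∉ Ici (0:ℝ) from not_le.2 hz), sub_zero]
    rw [h6, abs_of_neg hz]
    refine (hb z hz.le).trans ?_
    rw [show -(2 * -z) = 2 * z by ring]
    exact mul_le_mul_of_nonneg_right (by linarith) (Real.exp_pos _).le

/-- integrals of the main part against an exponential -/
theorem sp_int (ρ σ : ℂ) (hne : ρ - σ ≠ 0) (w : ℝ) :
    ∫ z in Iic w, cexp (-σ * z) * sp ρ z =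
      if 0 ≤ w then qh ρ * (cexp ((ρ - σ) * w) - 1) / (ρ - σ) else 0 := by
  have e1 : (fun z : ℝ => cexp (-σ * z) * sp ρ z) =
      (Ici (0:ℝ)).indicator (fun z : ℝ => qh ρ * cexp ((ρ - σ) * z)) := by
    funext z
    unfold sp
    by_cases hz : z ∈ Ici (0:ℝ)
    · rw [indicator_of_mem hz, indicator_of_mem hz]
      rw [show cexp (-σ * z) * (qh ρ * cexp (ρ * z)) = qh ρ * (cexp (-σ * z) * cexp (ρ * z)) by ring,
        ← Complex.exp_add]
      congr 2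
      ring
    · rw [indicator_of_notMem hz, indicator_of_notMem hz, mul_zero]
  rw [e1, setIntegral_indicator measurableSet_Ici]
  split_ifs with hw
  · have e2 : Iic w ∩ Ici (0:ℝ) = Icc 0 w := by
      ext z
      simp only [mem_inter_iff, mem_Iic, mem_Ici, mem_Icc]
      tauto
    rw [e2, integral_Icc_eq_integral_Ioc, ← intervalIntegral.integral_of_le hw, intervalIntegral.integral_const_mul,
      int_exp_C (ρ - σ) hne]
    ring
  · have e2 : Iic w ∩ Ici (0:ℝ) = ∅ := by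
      ext z
      simp only [mem_inter_iff, mem_Iic, mem_Ici, mem_empty_iff_false, iff_false, not_and, not_le]
      intro h
      push Not at hw
      linarith
    rw [e2, setIntegral_empty]

theorem g_int (ρ : ℂ) (h0 : 0 < ρ.re) (h1 : ρ.re < 1) (w : ℝ) :
    ∫ z in Iic w, Ist ρ qc z = (∫ z in Iic w, rp ρ z) +
      if 0 ≤ w then qh ρ * (cexp (ρ * w) - 1) / ρ else 0 := by
  have hρ : ρ ≠ 0 := by rintro rfl; simp at h0
  obtain ⟨C, hC, hb⟩ := rp_bd ρ h0 h1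
  have hr := r_int (rp_meas ρ (by linarith)) hb
  have hg := (Ist_QQ qc_QQ ρ (by linarith)).int0 w
  have hs : IntegrableOn (sp ρ) (Iic w) := by
    refine (hg.sub hr.integrableOn).congr (ae_of_all _ fun z => ?_)
    simp [rp]
  have h2 := sp_int ρ 0 (by simpa using hρ) w
  simp only [neg_zero, zero_mul, Complex.exp_zero, one_mul, sub_zero] at h2
  rw [← h2, ← integral_add hr.integrableOn hs]
  refine integral_congr_ae (ae_of_all _ fun z => ?_)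
  simp [rp]

theorem ll_sum (ρ : ℂ) (hz : riemannZeta ρ = 0) (h0 : 0 < ρ.re) (h1 : ρ.re < 1) (t : ℝ) (ht : 0 ≤ t) :
    ∫ v : ℝ, (ll (t - v) : ℂ) * Sg (Ist ρ qc) v =
      (∫ z in Iic t, ((⌊Real.exp ((t - z) / 2)⌋₊ : ℕ) : ℂ) * rp ρ z) +
      qh ρ / ρ * (cexp (ρ * t) * Zr (2 * ρ) ⌊Real.exp (t / 2)⌋₊ - (⌊Real.exp (t / 2)⌋₊ : ℂ)) := by
  obtain ⟨C, hC, hb⟩ := rp_bd ρ h0 h1
  have k1 := liou (Ist_QQ qc_QQ ρ (by linarith)) (S_DK ρ hz h0 h1) t
  have k2 := (floor_sum (rp_meas ρ (by linarith)) hC hb t).add (main_sum ρ (qh ρ) t ht)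
  have e : (fun m : ℕ => ∫ z in Iic (t - 2 * Real.log ((m : ℝ) + 1)), Ist ρ qc z) = fun m : ℕ =>
      (∫ z in Iic (t - 2 * Real.log ((m : ℝ) + 1)), rp ρ z) +
        if 0 ≤ t - 2 * Real.log ((m : ℝ) + 1) then
          qh ρ * (cexp (ρ * ((t - 2 * Real.log ((m : ℝ) + 1) : ℝ) : ℂ)) - 1) / ρ else 0 :=
    funext fun m => g_int ρ h0 h1 _
  rw [e] at k1
  exact k1.unique k2

theorem alg1 (Y J E G Q α X w : ℂ) (hw : w ≠ 0) : Y * ((J - E * G) / w - α * (X - 1) / (-w)) - (Q - α) * Y / w =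
    ((Y * J - Y * Q) - ((Y * E) * G - α * (Y * X))) / w := by
  rw [div_neg]
  field_simp
  ring

theorem alg2 (α Y ρ w : ℂ) (hρ : ρ ≠ 0) (hw : w ≠ 0) : α / ρ * (Y * (2 * ρ / (-(2 * w)))) = -(α * Y / w) := by
  rw [div_neg]
  field_simp

theorem alg3 (S α ρ Zt Y Q w ζ E D X : ℂ) (h3 : α / ρ * (Y * D) = -(α * Y / w)) :
    S + α / ρ * Zt - (Y * (Q / w) + α / ρ * ζ * E) =
      (S - Y * X) + (Y * X - (Q - α) * Y / w) + α / ρ * (Zt - (E * ζ - Y * D)) := by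
  linear_combination -h3

/-- the transform of the remainder -/
theorem rp_half (ρ : ℂ) (hre : ρ.re = 1 / 2) (hne : ρ ≠ 1 / 2) : ∃ C : ℝ, 0 ≤ C ∧ ∀ t : ℝ, 0 ≤ t →
    ‖(Real.exp (t / 2) : ℂ) * (∫ z in Iic t, cexp (-(1 / 2 : ℂ) * z) * rp ρ z) -
      (qh (1 / 2) - qh ρ) * Real.exp (t / 2) / (1 / 2 - ρ)‖ ≤ C := by
  have h0 : 0 < ρ.re := by rw [hre]; norm_num
  have h1 : ρ.re < 1 := by rw [hre]; norm_num
  have hne2 : (1 / 2 - ρ) ≠ 0 := sub_ne_zero.2 (Ne.symm hne)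
  have hne3 : (ρ - 1 / 2) ≠ 0 := sub_ne_zero.2 hne
  obtain ⟨C, hC, hb⟩ := rp_bd ρ h0 h1
  have hD := D2_nonneg
  refine ⟨(48 * D2 + C) / ‖(1 / 2 - ρ)‖, by positivity, fun t ht => ?_⟩
  have hh : ((1 / 2 : ℂ)).re < 2 := by norm_num
  have i1 := (Ist_QQ qc_QQ ρ (by linarith)).int (1 / 2) hh t
  have hr := r_int (rp_meas ρ (by linarith)) hb
  have i2 : IntegrableOn (fun z : ℝ => cexp (-(1 / 2 : ℂ) * z) * rp ρ z) (Iic t) := by
    refine Integrable.integrableOn ?_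
    have hm := rp_meas ρ (show ρ.re < 2 by linarith)
    refine ((int_exp_abs 1 one_pos).const_mul C).mono' ?_ (ae_of_all _ fun z => ?_)
    · exact (by fun_prop : Measurable fun z : ℝ => cexp (-(1 / 2 : ℂ) * z) * rp ρ z).aestronglyMeasurable
    · rw [norm_mul, norm_tw]
      have h2 : (1 / 2 : ℂ).re = 1 / 2 := by norm_num
      rw [h2]
      calc Real.exp (-(1 / 2) * z) * ‖rp ρ z‖ ≤ Real.exp |z| * (C * Real.exp (-(2 * |z|))) := by
            refine mul_le_mul (Real.exp_le_exp.2 ?_) (hb z) (norm_nonneg _) (Real.exp_pos _).le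
            have := neg_abs_le z
            have := abs_nonneg z
            linarith
        _ = C * (Real.exp |z| * Real.exp (-(2 * |z|))) := by ring
        _ = _ := by rw [← Real.exp_add]; congr 2; ring
  have i3 : IntegrableOn (fun z : ℝ => cexp (-(1 / 2 : ℂ) * z) * sp ρ z) (Iic t) := by
    refine (i1.sub i2).congr (ae_of_all _ fun z => ?_)
    simp only [rp, Pi.sub_apply]
    ring
  have e1 : ∫ z in Iic t, cexp (-(1 / 2 : ℂ) * z) * rp ρ z =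
      (∫ z in Iic t, cexp (-(1 / 2 : ℂ) * z) * Ist ρ qc z) - ∫ z in Iic t, cexp (-(1 / 2 : ℂ) * z) * sp ρ z := by
    rw [← integral_sub i1 i3]
    refine integral_congr_ae (ae_of_all _ fun z => ?_)
    simp only [rp]
    ring
  have e2 := sp_int ρ (1 / 2) hne3 t
  rw [if_pos ht] at e2
  have e3 := half_QQ qc_QQ ρ (by linarith) hne t
  have e4 := half_tail qc_meas (by norm_num) qc_bd t
  have e5 : ∫ z : ℝ, cexp (-(1 / 2 : ℂ) * z) * qc z = qh (1 / 2) := rfl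
  rw [e5] at e4
  -- exponentials
  have x1 : (Real.exp (t / 2) : ℂ) * cexp (-(1 / 2 : ℂ) * t) = 1 := by
    rw [Complex.ofReal_exp, ← Complex.exp_add, show ((t / 2 : ℝ) : ℂ) + -(1 / 2 : ℂ) * t = 0 by push_cast; ring,
      Complex.exp_zero]
  have x2 : (Real.exp (t / 2) : ℂ) * cexp ((ρ - 1 / 2) * t) = cexp (ρ * t) := by
    rw [Complex.ofReal_exp, ← Complex.exp_add]
    congr 1
    push_cast
    ring
  have x3 : rp ρ t = Ist ρ qc t - qh ρ * cexp (ρ * t) := by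
    unfold rp sp
    rw [indicator_of_mem (show t ∈ Ici (0:ℝ) from ht)]
  have e6 : ‖rp ρ t‖ ≤ C := by
    refine (hb t).trans ?_
    have : Real.exp (-(2 * |t|)) ≤ 1 := Real.exp_le_one_iff.2 (by have := abs_nonneg t; linarith)
    nlinarith
  set J : ℂ := ∫ z in Iic t, cexp (-(1 / 2 : ℂ) * z) * qc z with hJ
  set Y : ℂ := (Real.exp (t / 2) : ℂ) with hY
  have e7 : Y * (∫ z in Iic t, cexp (-(1 / 2 : ℂ) * z) * rp ρ z) - (qh (1 / 2) - qh ρ) * Y / (1 / 2 - ρ) =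
      ((Y * J - Y * qh (1 / 2)) - rp ρ t) / (1 / 2 - ρ) := by
    have h3 : qh ρ * (cexp ((ρ - 1 / 2) * t) - 1) / (ρ - 1 / 2) =
        qh ρ * (cexp ((ρ - 1 / 2) * t) - 1) / (-(1 / 2 - ρ)) := by
      rw [neg_sub]
    rw [e1, e2, e3, h3, alg1 _ _ _ _ _ _ _ _ hne2, x1, x2, x3, one_mul]
  rw [e7, norm_div]
  refine div_le_div_of_nonneg_right ?_ (norm_nonneg _)
  exact (norm_sub_le _ _).trans (add_le_add e4 e6)

/-- **The twisted averages of the Liouville function.** -/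
theorem ll_tw (ρ : ℂ) (hz : riemannZeta ρ = 0) (hre : ρ.re = 1 / 2) : ∃ C : ℝ, 0 ≤ C ∧ ∀ t : ℝ, 0 ≤ t →
    ‖(∫ v : ℝ, (ll (t - v) : ℂ) * Sg (Ist ρ qc) v) -
      (Real.exp (t / 2) * (qh (1 / 2) / (1 / 2 - ρ)) + qh ρ / ρ * riemannZeta (2 * ρ) * cexp (ρ * t))‖ ≤ C := by
  have h0 : 0 < ρ.re := by rw [hre]; norm_num
  have h1 : ρ.re < 1 := by rw [hre]; norm_num
  have hne : ρ ≠ 1 / 2 := by
    rintro rfl
    exact zeta_half_ne hz
  have hρ : ρ ≠ 0 := by rintro rfl; simp at h0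
  have hne2 : (1 / 2 - ρ) ≠ 0 := sub_ne_zero.2 (Ne.symm hne)
  obtain ⟨C, hC, hb⟩ := rp_bd ρ h0 h1
  obtain ⟨C1, hC1, hb1⟩ := rp_half ρ hre hne
  obtain ⟨C2, hC2, hb2⟩ := Zr_asy ρ hre hne
  have hD := D2_nonneg
  refine ⟨C * D2 + C1 + ‖qh ρ / ρ‖ * C2, by positivity, fun t ht => ?_⟩
  rw [ll_sum ρ hz h0 h1 t ht]
  have k1 := sq_int (rp_meas ρ (by linarith)) hC hb t
  have k2 := hb1 t ht
  have k3 := hb2 t ht
  set S : ℂ := ∫ z in Iic t, ((⌊Real.exp ((t - z) / 2)⌋₊ : ℕ) : ℂ) * rp ρ z with hS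
  set X : ℂ := ∫ z in Iic t, cexp (-(1 / 2 : ℂ) * z) * rp ρ z with hX
  set Y : ℂ := (Real.exp (t / 2) : ℂ) with hY
  set Zt : ℂ := cexp (ρ * t) * Zr (2 * ρ) ⌊Real.exp (t / 2)⌋₊ - (⌊Real.exp (t / 2)⌋₊ : ℂ) with hZt
  have hs1' : 2 * ρ - 1 ≠ 0 := by
    intro h
    apply hne2
    linear_combination (-(1 / 2 : ℂ)) * h
  have e : S + qh ρ / ρ * Zt - (Y * (qh (1 / 2) / (1 / 2 - ρ)) + qh ρ / ρ * riemannZeta (2 * ρ) * cexp (ρ * t)) =
      (S - Y * X) + (Y * X - (qh (1 / 2) - qh ρ) * Y / (1 / 2 - ρ)) +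
      qh ρ / ρ * (Zt - (cexp (ρ * t) * riemannZeta (2 * ρ) - Y * (2 * ρ / (2 * ρ - 1)))) := by
    have h3 : qh ρ / ρ * (Y * (2 * ρ / (2 * ρ - 1))) = -(qh ρ * Y / (1 / 2 - ρ)) := by
      rw [show (2 * ρ - 1 : ℂ) = -(2 * (1 / 2 - ρ)) by ring]
      exact alg2 _ _ _ _ hρ hne2
    exact alg3 _ _ _ _ _ _ _ _ _ _ _ h3
  rw [e]
  refine (norm_add_le _ _).trans (add_le_add ((norm_add_le _ _).trans (add_le_add k1 k2)) ?_)
  rw [norm_mul]
  exact mul_le_mul_of_nonneg_left k3 (norm_nonneg _)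

theorem sig_EL : Sig EL := by
  refine ⟨EL_meas, ⟨1 + 1 / |zh|, by positivity, EL_bd⟩, EL_avg, fun ρ hz hre => ?_⟩
  have h0 : 0 < ρ.re := by rw [hre]; norm_num
  have h1 : ρ.re < 1 := by rw [hre]; norm_num
  have hne : ρ ≠ 1 / 2 := by
    rintro rfl
    exact zeta_half_ne hz
  have hρ : ρ ≠ 0 := by rintro rfl; simp at h0
  have hzc : (zh : ℂ) ≠ 0 := by exact_mod_cast zh_ne
  have hz2 : riemannZeta (2 * ρ) ≠ 0 := riemannZeta_ne_zero_of_one_le_re (by simp [hre])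
  obtain ⟨C1, hC1, hb1⟩ := ll_tw ρ hz hre
  obtain ⟨C2, hC2, hb2⟩ := bias (S_DK ρ hz h0 h1)
  refine ⟨Sg (Ist ρ qc), S_DK ρ hz h0 h1, qh ρ / ρ * riemannZeta (2 * ρ),
    mul_ne_zero (div_ne_zero (qh_ne ρ h0 h1) hρ) hz2, C1 + C2, by positivity, fun t ht => ?_⟩
  have k1 := hb1 t ht
  have k2 := hb2 t
  have k3 : ∫ v : ℝ, cexp (-(1 / 2 : ℂ) * v) * Sg (Ist ρ qc) v = Kh (1 / 2) / (1 / 2 - ρ) := by
    rw [S_eq ρ h1]
    exact half_DK kc_DK ρ (by rw [abs_of_pos h0]; linarith) (Kh_zero ρ hz h0 h1) hne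
  rw [k3, Kh_half] at k2
  have k4 : (Real.exp (t / 2) : ℂ) / zh * (zh * qh (1 / 2) / (1 / 2 - ρ)) =
      Real.exp (t / 2) * (qh (1 / 2) / (1 / 2 - ρ)) := by
    field_simp
  rw [k4] at k2
  rw [EL_split (S_DK ρ hz h0 h1)]
  have e : (∫ v : ℝ, (ll (t - v) : ℂ) * Sg (Ist ρ qc) v) - (∫ v : ℝ, (bb (t - v) : ℂ) * Sg (Ist ρ qc) v) -
      qh ρ / ρ * riemannZeta (2 * ρ) * cexp (ρ * t) =
      ((∫ v : ℝ, (ll (t - v) : ℂ) * Sg (Ist ρ qc) v) -
        (Real.exp (t / 2) * (qh (1 / 2) / (1 / 2 - ρ)) + qh ρ / ρ * riemannZeta (2 * ρ) * cexp (ρ * t))) -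
      ((∫ v : ℝ, (bb (t - v) : ℂ) * Sg (Ist ρ qc) v) - Real.exp (t / 2) * (qh (1 / 2) / (1 / 2 - ρ))) := by ring
  rw [e]
  refine (norm_sub_le _ _).trans ((add_le_add k1 k2).trans ?_)
  have : 0 ≤ (C1 + C2) * t := by positivity
  nlinarith

end

end Pool.Agent.W5h80.JO
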