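import Pool.Agent.H370R2.Expl3
import Pool.Agent.H370R2.Count
import Pool.Agent.H370R2.Local
import Pool.Agent.H370R2.DirGood

/-!
# A nonzero entire function of exponential type does not vanish at all critical zeros
-/

set_option autoImplicit false
set_option maxHeartbeats 4000000

open Complex Filter Topology Set MeasureTheory Metric

namespace Pool.Agent.W5h80.JO

/-- the simple zeros of zeta on the critical line with ordinate in `(T, 2T]` -/
def SS (T : ℝ) : Set ℂ :=
  {s : ℂ | s ∈ H370.zset riemannZeta T (2 * T) ∧ s.re = 1 / 2 ∧ H370.mult riemannZeta s = 1}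

theorem SS_fin (T : ℝ) (hT : 1 ≤ T) : (SS T).Finite :=
  (H370.zset_finite H370.good_zeta T (2 * T) hT).subset fun _ hs => hs.1

theorem SS_count : ∃ C T0 : ℝ, 0 < C ∧ 1 ≤ T0 ∧ ∀ T : ℝ, T0 ≤ T →
    (1 / 20) * (T * Real.log T) - C * T ≤ ((SS T).ncard : ℝ) := by
  obtain ⟨T0, hT0⟩ := H370.Expl.main_numeric riemannZeta H370.good_zeta
  obtain ⟨C, T1, hC, hT1, h⟩ := H370.nn_asymp H370.good_zeta
  refine ⟨C, max T0 T1, hC, by linarith [le_max_right T0 T1], fun T hT => ?_⟩
  have h1 := (hT0 T ((le_max_left _ _).trans hT)).1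
  have hTT : T1 ≤ T := (le_max_right _ _).trans hT
  have h2 := abs_le.1 (h T hTT T (2 * T) le_rfl (by linarith) (by linarith) le_rfl)
  have h3 : (H370.Ns riemannZeta T (2 * T) : ℝ) = ((SS T).ncard : ℝ) := rfl
  rw [← h3]
  have hT10 : 10 ≤ T := by linarith
  have hlog : 0 ≤ Real.log T := Real.log_nonneg (by linarith)
  have hTl : 0 ≤ T * Real.log T := by positivity
  have h4 : (1 / 10) * (T * Real.log T) ≤ T * Real.log T / (2 * Real.pi) := by
    rw [le_div_iff₀ (by positivity)]
    have := Real.pi_lt_four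
    nlinarith
  have h5 : 0 ≤ C * T := by positivity
  have h6 : 0 ≤ (H370.NN riemannZeta T (2 * T) : ℝ) := Nat.cast_nonneg _
  have h7 := h2.1
  nlinarith

theorem mult_ge_one {P : ℂ → ℂ} (hP : Differentiable ℂ P) {c z : ℂ} (hc : P c ≠ 0) (hz : P z = 0) :
    1 ≤ H370.mult P z := by
  have h := (H370.Loc.mult_pos (f := P) (K := univ) isPreconnected_univ
    (fun w _ => (hP.analyticAt w)) (mem_univ c) hc (mem_univ z)).2 hz
  exact h

/-- a nonzero entire function of exponential type is nonzero at some zero of zeta on the critical line -/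
theorem zero_of_type {P : ℂ → ℂ} (hP : Differentiable ℂ P) (K R : ℝ) (hK : 0 < K) (hR : 0 ≤ R)
    (hb : ∀ s, ‖P s‖ ≤ K * Real.exp (R * ‖s‖)) (c : ℂ) (hc : P c ≠ 0) :
    ∃ ρ : ℂ, riemannZeta ρ = 0 ∧ ρ.re = 1 / 2 ∧ P ρ ≠ 0 := by
  by_contra hcon
  push Not at hcon
  obtain ⟨C, T0, hC, hT0, hS⟩ := SS_count
  have hlog2 : 0 < Real.log 2 := Real.log_pos (by norm_num)
  set A : ℝ := (|Real.log K| + |Real.log ‖P c‖| + R * (‖c‖ + 2 * (1 + ‖c‖))) / Real.log 2 with hA
  set B : ℝ := 4 * R / Real.log 2 with hB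
  have hbound : ∀ T : ℝ, T0 ≤ T → ((SS T).ncard : ℝ) ≤ A + B * T := by
    intro T hT
    have hT1 : 1 ≤ T := hT0.trans hT
    set r : ℝ := 2 * T + 1 + ‖c‖ with hr
    have hr0 : 0 < r := by positivity
    have hfin := SS_fin T hT1
    set M : ℝ := max 1 (K * Real.exp (R * (‖c‖ + 2 * r))) with hM
    have hpc : 0 < ‖P c‖ := norm_pos_iff.2 hc
    have hj := H370.Loc.jensen_mult (f := P) (c := c) (r := r) (R := 2 * r) (M := M) hr0 (by linarith)
      (le_max_left _ _) (fun w _ => hP.analyticAt w) hc (by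
        intro z hz
        refine (hb z).trans ((mul_le_mul_of_nonneg_left (Real.exp_le_exp.2 ?_) hK.le).trans (le_max_right _ _))
        refine mul_le_mul_of_nonneg_left ?_ hR
        rw [mem_closedBall, dist_eq_norm] at hz
        have := norm_add_le (z - c) c
        rw [sub_add_cancel] at this
        linarith) hfin.toFinset (by
        intro z hz
        rw [Set.Finite.mem_toFinset] at hz
        obtain ⟨⟨h1, h2, h3, h4, h5⟩, h6, h7⟩ := hz
        rw [mem_closedBall, dist_eq_norm]
        have g1 := norm_sub_le z c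
        have g2 := Complex.norm_le_abs_re_add_abs_im z
        rw [h6, abs_of_pos (by linarith : 0 < z.im)] at g2
        rw [abs_of_pos (by norm_num : (0:ℝ) < 1 / 2)] at g2
        linarith)
    have hcard : ((SS T).ncard : ℝ) ≤ ∑ z ∈ hfin.toFinset, (H370.mult P z : ℝ) := by
      rw [Set.ncard_eq_toFinset_card _ hfin]
      have : ((hfin.toFinset.card : ℕ) : ℝ) = ∑ z ∈ hfin.toFinset, (1:ℝ) := by simp
      rw [this]
      refine Finset.sum_le_sum fun z hz => ?_
      rw [Set.Finite.mem_toFinset] at hz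
      have : 1 ≤ H370.mult P z := mult_ge_one hP hc (hcon z hz.1.2.2.2.2 hz.2.1)
      exact_mod_cast this
    refine (hcard.trans hj).trans ?_
    have e1 : 2 * r / r = 2 := by field_simp
    rw [e1, Real.log_div (by positivity) hpc.ne']
    have e2 : Real.log M ≤ |Real.log K| + R * (‖c‖ + 2 * r) := by
      rw [hM]
      have hRr : 0 ≤ R * (‖c‖ + 2 * r) := by positivity
      have := abs_nonneg (Real.log K)
      rcases le_total 1 (K * Real.exp (R * (‖c‖ + 2 * r))) with h | h
      · rw [max_eq_right h, Real.log_mul hK.ne' (Real.exp_pos _).ne', Real.log_exp]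
        linarith [le_abs_self (Real.log K)]
      · rw [max_eq_left h, Real.log_one]
        linarith
    rw [hA, hB, div_mul_eq_mul_div, ← add_div]
    refine div_le_div_of_nonneg_right ?_ hlog2.le
    have e3 := neg_abs_le (Real.log ‖P c‖)
    rw [hr] at e2
    linarith
  -- contradiction
  obtain ⟨T, h1, h2, h3⟩ := ((Real.tendsto_log_atTop.eventually_ge_atTop (20 * (|A| + |B| + C + 1))).and
    ((eventually_ge_atTop T0).and (eventually_ge_atTop (1:ℝ)))).exists
  have k1 := hS T h2
  have k2 := hbound T h2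
  have k3 : (|A| + |B| + C + 1) * T ≤ (1 / 20) * (T * Real.log T) := by nlinarith
  have k4 := le_abs_self A
  have k5 := le_abs_self B
  have k6 := abs_nonneg A
  have k7 : |A| * 1 ≤ |A| * T := mul_le_mul_of_nonneg_left h3 k6
  have k8 : B * T ≤ |B| * T := mul_le_mul_of_nonneg_right k5 (by linarith)
  nlinarith

end Pool.Agent.W5h80.JO
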