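import Pool.Agent.W5h80.JO.T

/-!
# Uniform oscillation over weakly compact families of measures
-/

set_option autoImplicit false
set_option maxHeartbeats 4000000

open Complex MeasureTheory Filter Topology Set
open H313.TK
open scoped BoundedContinuousFunction

namespace Pool.Agent.W5h80.JO

noncomputable section

/-- the bounded continuous function equal to `y ^ s` on `[α, β]` -/
def pw (α β : ℝ) (s : ℂ) (y : ℝ) : ℂ := cexp (s * (Real.log (max α (min y β)) : ℝ))

theorem clamp_mem {α β : ℝ} (hαβ : α ≤ β) (y : ℝ) : max α (min y β) ∈ Icc α β :=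
  ⟨le_max_left _ _, max_le hαβ (min_le_right _ _)⟩

theorem pw_cont {α β : ℝ} (hα : 0 < α) (s : ℂ) : Continuous (pw α β s) := by
  unfold pw
  have h1 : Continuous (fun y : ℝ => Real.log (max α (min y β))) :=
    Continuous.log (by fun_prop) (fun y => (lt_of_lt_of_le hα (le_max_left _ _)).ne')
  fun_prop

theorem pw_bd {α β : ℝ} (hα : 0 < α) (hαβ : α ≤ β) (s : ℂ) : ∃ C : ℝ, ∀ y, ‖pw α β s y‖ ≤ C := by
  have hc : ContinuousOn (fun y : ℝ => cexp (s * (Real.log y : ℝ))) (Icc α β) := by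
    have h1 : ContinuousOn (fun y : ℝ => Real.log y) (Icc α β) :=
      Real.continuousOn_log.mono fun y hy => (lt_of_lt_of_le hα hy.1).ne'
    fun_prop
  obtain ⟨C, hC⟩ := isCompact_Icc.exists_bound_of_continuousOn hc
  exact ⟨C, fun y => hC _ (clamp_mem hαβ y)⟩

/-- real part, as a bounded continuous function -/
def pwr {α β : ℝ} (hα : 0 < α) (hαβ : α ≤ β) (s : ℂ) : ℝ →ᵇ ℝ :=
  BoundedContinuousFunction.ofNormedAddCommGroup (fun y => (pw α β s y).re)
    (Complex.continuous_re.comp (pw_cont hα s)) (pw_bd hα hαβ s).choose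
    (fun y => (by
      rw [Real.norm_eq_abs]
      exact (Complex.abs_re_le_norm _).trans ((pw_bd hα hαβ s).choose_spec y)))

/-- imaginary part, as a bounded continuous function -/
def pwi {α β : ℝ} (hα : 0 < α) (hαβ : α ≤ β) (s : ℂ) : ℝ →ᵇ ℝ :=
  BoundedContinuousFunction.ofNormedAddCommGroup (fun y => (pw α β s y).im)
    (Complex.continuous_im.comp (pw_cont hα s)) (pw_bd hα hαβ s).choose
    (fun y => (by
      rw [Real.norm_eq_abs]
      exact (Complex.abs_im_le_norm _).trans ((pw_bd hα hαβ s).choose_spec y)))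

/-- the transform of the image of a measure under the logarithm -/
theorem Tr_log {α β : ℝ} (hα : 0 < α) (hαβ : α ≤ β) (ν : FiniteMeasure ℝ)
    (hν : (ν : Measure ℝ) (Icc α β)ᶜ = 0) (s : ℂ) :
    Tr ((ν : Measure ℝ).map Real.log) s = ((∫ y, pwr hα hαβ s y ∂(ν : Measure ℝ) : ℝ) : ℂ) +
      ((∫ y, pwi hα hαβ s y ∂(ν : Measure ℝ) : ℝ) : ℂ) * I := by
  have hae : ∀ᵐ y ∂(ν : Measure ℝ), y ∈ Icc α β := by
    rw [ae_iff]
    exact hν
  have h1 : Tr ((ν : Measure ℝ).map Real.log) s = ∫ y, pw α β s y ∂(ν : Measure ℝ) := by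
    unfold Tr
    rw [integral_map Real.measurable_log.aemeasurable
      ((by fun_prop : Continuous fun l : ℝ => cexp (s * l)).aestronglyMeasurable)]
    refine integral_congr_ae ?_
    filter_upwards [hae] with y hy
    unfold pw
    rw [min_eq_left hy.2, max_eq_right hy.1]
  have hint : Integrable (pw α β s) (ν : Measure ℝ) := by
    obtain ⟨C, hC⟩ := pw_bd hα hαβ s
    exact Integrable.of_bound (pw_cont hα s).aestronglyMeasurable C (ae_of_all _ hC)
  rw [h1]
  exact (integral_re_add_im hint).symm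

theorem log_Bdd {α β : ℝ} (hα : 0 < α) (ν : FiniteMeasure ℝ) (hν : (ν : Measure ℝ) (Icc α β)ᶜ = 0) (m : ℝ)
    (hm : (ν : Measure ℝ).real univ ≤ m) :
    Bdd (|Real.log α| + |Real.log β|) m ((ν : Measure ℝ).map Real.log) := by
  refine ⟨inferInstance, ?_, ?_⟩
  · rw [Measure.map_apply Real.measurable_log measurableSet_Icc.compl]
    refine measure_mono_null ?_ hν
    intro y hy hy2
    apply hy
    have hy0 : 0 < y := hα.trans_le hy2.1
    have h1 := Real.log_le_log hα hy2.1
    have h2 := Real.log_le_log hy0 hy2.2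
    have h3 := neg_abs_le (Real.log α)
    have h4 := le_abs_self (Real.log β)
    have h5 := abs_nonneg (Real.log α)
    have h6 := abs_nonneg (Real.log β)
    constructor <;> linarith
  · have : ((ν : Measure ℝ).map Real.log).real univ = (ν : Measure ℝ).real univ := by
      rw [map_measureReal_apply Real.measurable_log MeasurableSet.univ]
      rfl
    rw [this]
    exact hm

theorem log_inj {α β : ℝ} (hα : 0 < α) {ν₁ ν₂ : Measure ℝ} (h1 : ν₁ (Icc α β)ᶜ = 0) (h2 : ν₂ (Icc α β)ᶜ = 0)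
    (h : ν₁.map Real.log = ν₂.map Real.log) : ν₁ = ν₂ := by
  have key : ∀ ν : Measure ℝ, ν (Icc α β)ᶜ = 0 → (ν.map Real.log).map Real.exp = ν := by
    intro ν hν
    rw [Measure.map_map Real.measurable_exp Real.measurable_log]
    have hae : ∀ᵐ y ∂ν, y ∈ Icc α β := by
      rw [ae_iff]
      exact hν
    have : (Real.exp ∘ Real.log) =ᵐ[ν] id := by
      filter_upwards [hae] with y hy
      simp only [Function.comp_apply, id]
      exact Real.exp_log (hα.trans_le hy.1)
    rw [Measure.map_congr this, Measure.map_id]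
  rw [← key ν₁ h1, ← key ν₂ h2, h]

/-- pairs of different measures on `[α, β]` -/
def Pairs (α β : ℝ) : Set (FiniteMeasure ℝ × FiniteMeasure ℝ) :=
  {x | (x.1 : Measure ℝ) (Icc α β)ᶜ = 0 ∧ (x.2 : Measure ℝ) (Icc α β)ᶜ = 0 ∧ x.1 ≠ x.2}

/-- change of variables on a window -/
theorem cv (g : ℝ → ℝ) (x : ℝ) (hx : 0 < x) (hl : 1 ≤ Real.log x) :
    ∫ u in Icc (Real.log x) (Real.log x + Real.log (Real.log x)), g (Real.exp u) * Real.exp (-(u / 2)) =
      ∫ y in x..(x * Real.log x), g y * y ^ (-(3 / 2) : ℝ) := by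
  have hl0 : 0 < Real.log x := by linarith
  have e2 : Real.exp (Real.log x + Real.log (Real.log x)) = x * Real.log x := by
    rw [Real.exp_add, Real.exp_log hl0, Real.exp_log hx]
  have himg : Real.exp '' Icc (Real.log x) (Real.log x + Real.log (Real.log x)) = Icc x (x * Real.log x) := by
    ext y
    constructor
    · rintro ⟨u, hu, rfl⟩
      refine ⟨(Real.log_le_iff_le_exp hx).1 hu.1, ?_⟩
      rw [← e2]
      exact Real.exp_le_exp.2 hu.2
    · intro hy
      have hy0 : 0 < y := hx.trans_le hy.1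
      refine ⟨Real.log y, ⟨Real.log_le_log hx hy.1, ?_⟩, Real.exp_log hy0⟩
      rw [Real.log_le_iff_le_exp hy0, e2]
      exact hy.2
  have key := integral_image_eq_integral_abs_deriv_smul (s := Icc (Real.log x) (Real.log x + Real.log (Real.log x)))
    measurableSet_Icc (f := Real.exp) (f' := Real.exp) (fun x _ => (Real.hasDerivAt_exp x).hasDerivWithinAt)
    Real.exp_injective.injOn (fun y => g y * y ^ (-(3 / 2) : ℝ))
  rw [himg] at key
  have hle : x ≤ x * Real.log x := le_mul_of_one_le_right hx.le hl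
  rw [intervalIntegral.integral_of_le hle, ← integral_Icc_eq_integral_Ioc, key]
  refine setIntegral_congr_fun measurableSet_Icc fun u _ => ?_
  simp only [smul_eq_mul]
  rw [abs_of_pos (Real.exp_pos u), ← Real.exp_mul]
  have : Real.exp (-(u / 2)) = Real.exp u * Real.exp (u * -(3 / 2)) := by
    rw [← Real.exp_add]; congr 1; ring
  rw [this]
  ring

/-- **Uniform oscillation.** -/
theorem uniform {E' E : ℝ → ℝ} (hE : Sig E') (hEE : ∀ w, 0 ≤ w → E' w = E (Real.exp w)) {α β : ℝ} (hα : 0 < α)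
    (hαβ : α ≤ β) (K : Set (FiniteMeasure ℝ × FiniteMeasure ℝ)) (hK : IsCompact K) (hKP : K ⊆ Pairs α β) :
    ∃ c : ℝ, 0 < c ∧ ∀ᶠ x : ℝ in atTop, ∀ p ∈ K, (∃ y ∈ Icc x (x * Real.log x),
      c * Real.sqrt y ≤ (∫ r, E (r * y) ∂(p.1 : Measure ℝ)) - ∫ r, E (r * y) ∂(p.2 : Measure ℝ)) ∧
      c ≤ ∫ y in x..(x * Real.log x), max ((∫ r, E (r * y) ∂(p.1 : Measure ℝ)) - ∫ r, E (r * y) ∂(p.2 : Measure ℝ)) 0 *
        y ^ (-(3 / 2) : ℝ) := by
  -- masses
  have hmass : ∃ m : ℝ, 0 ≤ m ∧ ∀ p ∈ K, (p.1 : Measure ℝ).real univ ≤ m ∧ (p.2 : Measure ℝ).real univ ≤ m := by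
    have hc1 : Continuous (fun p : FiniteMeasure ℝ × FiniteMeasure ℝ => ((p.1.mass : ℝ), (p.2.mass : ℝ))) := by
      have g1 := (NNReal.continuous_coe.comp FiniteMeasure.continuous_mass).comp
        (continuous_fst : Continuous (Prod.fst : FiniteMeasure ℝ × FiniteMeasure ℝ → FiniteMeasure ℝ))
      have g2 := (NNReal.continuous_coe.comp FiniteMeasure.continuous_mass).comp
        (continuous_snd : Continuous (Prod.snd : FiniteMeasure ℝ × FiniteMeasure ℝ → FiniteMeasure ℝ))
      exact g1.prodMk g2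
    obtain ⟨m, hm⟩ := hK.exists_bound_of_continuousOn hc1.continuousOn
    refine ⟨|m|, abs_nonneg _, fun p hp => ?_⟩
    have h1 := (hm p hp).trans (le_abs_self m)
    rw [Prod.norm_def] at h1
    have e1 : (p.1 : Measure ℝ).real univ = (p.1.mass : ℝ) := rfl
    have e2 : (p.2 : Measure ℝ).real univ = (p.2.mass : ℝ) := rfl
    rw [e1, e2]
    constructor
    · have := (le_max_left _ _).trans h1
      rwa [Real.norm_eq_abs, abs_of_nonneg (NNReal.coe_nonneg _)] at this
    · have := (le_max_right _ _).trans h1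
      rwa [Real.norm_eq_abs, abs_of_nonneg (NNReal.coe_nonneg _)] at this
  obtain ⟨m, hm0, hm⟩ := hmass
  set R : ℝ := |Real.log α| + |Real.log β| with hR
  have hR0 : 0 ≤ R := by positivity
  have hB1 : ∀ p ∈ K, Bdd R m ((p.1 : Measure ℝ).map Real.log) := fun p hp =>
    log_Bdd hα p.1 (hKP hp).1 m (hm p hp).1
  have hB2 : ∀ p ∈ K, Bdd R m ((p.2 : Measure ℝ).map Real.log) := fun p hp =>
    log_Bdd hα p.2 (hKP hp).2.1 m (hm p hp).2
  -- selection of zeros
  obtain ⟨F, η, hF, hη, hηF⟩ := sel K hK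
    (fun p s => Dt ((p.1 : Measure ℝ).map Real.log) ((p.2 : Measure ℝ).map Real.log) s) (fun s => by
      have hc : Continuous (fun p : FiniteMeasure ℝ × FiniteMeasure ℝ =>
          (((∫ y, pwr hα hαβ s y ∂(p.1 : Measure ℝ) : ℝ) : ℂ) + ((∫ y, pwi hα hαβ s y ∂(p.1 : Measure ℝ) : ℝ) : ℂ) * I) -
          (((∫ y, pwr hα hαβ s y ∂(p.2 : Measure ℝ) : ℝ) : ℂ) + ((∫ y, pwi hα hαβ s y ∂(p.2 : Measure ℝ) : ℝ) : ℂ) * I)) := by
        have g : ∀ f : ℝ →ᵇ ℝ, Continuous (fun ν : FiniteMeasure ℝ => ((∫ y, f y ∂(ν : Measure ℝ) : ℝ) : ℂ)) :=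
          fun f => Complex.continuous_ofReal.comp (FiniteMeasure.continuous_integral_boundedContinuousFunction f)
        have g1 := fun f => (g f).comp
          (continuous_fst : Continuous (Prod.fst : FiniteMeasure ℝ × FiniteMeasure ℝ → FiniteMeasure ℝ))
        have g2 := fun f => (g f).comp
          (continuous_snd : Continuous (Prod.snd : FiniteMeasure ℝ × FiniteMeasure ℝ → FiniteMeasure ℝ))
        exact ((g1 _).add ((g1 _).mul continuous_const)).sub ((g2 _).add ((g2 _).mul continuous_const))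
      refine hc.continuousOn.congr fun p hp => ?_
      simp only [Dt]
      rw [Tr_log hα hαβ p.1 (hKP hp).1, Tr_log hα hαβ p.2 (hKP hp).2.1])
    (fun p hp => exists_zero_of_ne hR0 (hB1 p hp) (hB2 p hp) (fun h => (hKP hp).2.2
      (FiniteMeasure.toMeasure_injective (log_inj hα (hKP hp).1 (hKP hp).2.1 h))))
  obtain ⟨c, hc, hev, hevI⟩ := general (X := K) hE R m hR0 hm0 (fun p => (p.1.1 : Measure ℝ).map Real.log)
    (fun p => (p.1.2 : Measure ℝ).map Real.log) (fun p => hB1 p.1 p.2) (fun p => hB2 p.1 p.2) F hF η hη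
    (fun p => hηF p.1 p.2)
  refine ⟨c, hc, ?_⟩
  filter_upwards [Real.tendsto_log_atTop.eventually hev, Real.tendsto_log_atTop.eventually hevI,
    Real.tendsto_log_atTop.eventually_ge_atTop R, eventually_ge_atTop (Real.exp 1)] with x hx hxI hxR hx1 p hp
  have hx0 : 0 < x := (Real.exp_pos 1).trans_le hx1
  have hl1 : 1 ≤ Real.log x := by rwa [Real.le_log_iff_exp_le hx0]
  have key : ∀ ν : FiniteMeasure ℝ, (ν : Measure ℝ) (Icc α β)ᶜ = 0 → ∀ u : ℝ, Real.log x ≤ u →
      Av E' ((ν : Measure ℝ).map Real.log) u = ∫ r, E (r * Real.exp u) ∂(ν : Measure ℝ) := by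
    intro ν hν u hu
    have hae : ∀ᵐ y ∂(ν : Measure ℝ), y ∈ Icc α β := by
      rw [ae_iff]
      exact hν
    unfold Av
    have hmE := hE.meas
    rw [integral_map Real.measurable_log.aemeasurable
      ((by fun_prop : Measurable fun l : ℝ => E' (u + l)).aestronglyMeasurable)]
    refine integral_congr_ae ?_
    filter_upwards [hae] with y hy
    have hy0 : 0 < y := hα.trans_le hy.1
    have h1 := Real.log_le_log hα hy.1
    have h3 := neg_abs_le (Real.log α)
    have h6 := abs_nonneg (Real.log β)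
    rw [hEE _ (by linarith), Real.exp_add, Real.exp_log hy0, mul_comm]
  constructor
  · obtain ⟨u, hu, hu2⟩ := hx ⟨p, hp⟩
    refine ⟨Real.exp u, ⟨?_, ?_⟩, ?_⟩
    · rw [← Real.log_le_iff_le_exp hx0]; exact hu.1
    · have h2 : Real.log (x * Real.log x) = Real.log x + Real.log (Real.log x) :=
        Real.log_mul hx0.ne' (by linarith)
      rw [← Real.le_log_iff_exp_le (by positivity), h2]
      exact hu.2
    · have hsq : Real.sqrt (Real.exp u) = Real.exp (u / 2) := by
        rw [Real.sqrt_eq_iff_mul_self_eq (Real.exp_pos _).le (Real.exp_pos _).le, ← Real.exp_add]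
        congr 1
        ring
      rw [hsq]
      refine hu2.trans (le_of_eq ?_)
      unfold Dv
      rw [key p.1 (hKP hp).1 u hu.1, key p.2 (hKP hp).2.1 u hu.1]
  · refine (hxI ⟨p, hp⟩).trans (le_of_eq ?_)
    rw [← cv (fun y => max ((∫ r, E (r * y) ∂(p.1 : Measure ℝ)) - ∫ r, E (r * y) ∂(p.2 : Measure ℝ)) 0) x hx0 hl1]
    refine setIntegral_congr_fun measurableSet_Icc fun u hu => ?_
    simp only [Dv]
    rw [key p.1 (hKP hp).1 u hu.1, key p.2 (hKP hp).2.1 u hu.1]

end

end Pool.Agent.W5h80.JO
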