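import Pool.Agent.W5h80.JO.S

/-!
# The Mertens function is a signal
-/

set_option autoImplicit false
set_option maxHeartbeats 4000000

open Complex MeasureTheory Filter Topology Set
open H313.TK

namespace Pool.Agent.W5h80.JO

noncomputable section

theorem S_eq (ρ : ℂ) (h1 : ρ.re < 1) : Sg (Ist ρ qc) = Ist ρ kc := by
  funext v
  rw [kc_eq]
  exact (Sg_Ist qc_QQ ρ (by linarith) v).symm

theorem S_DK (ρ : ℂ) (hz : riemannZeta ρ = 0) (h0 : 0 < ρ.re) (h1 : ρ.re < 1) : DK (Sg (Ist ρ qc)) := by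
  rw [S_eq ρ h1]
  exact Ist_DK kc_DK ρ (by rw [abs_of_pos h0]; linarith) (Kh_zero ρ hz h0 h1)

theorem sig_mm : Sig mm := by
  refine ⟨mm_meas, ⟨1, zero_le_one, fun u => by rw [one_mul]; exact abs_mm_le u⟩,
    ⟨48 * ∫ x : ℝ, Real.exp (-(2 * |x|)), ?_, fun t _ => avg_mm t⟩, fun ρ hz hre => ?_⟩
  · have : 0 ≤ ∫ x : ℝ, Real.exp (-(2 * |x|)) := integral_nonneg fun x => (Real.exp_pos _).le
    positivity
  · have h0 : 0 < ρ.re := by rw [hre]; norm_num
    have h1 : ρ.re < 1 := by rw [hre]; norm_num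
    have hρ : ρ ≠ 0 := by rintro rfl; simp at h0
    obtain ⟨C, hC, hb⟩ := G1_asy ρ h0 h1
    refine ⟨Sg (Ist ρ qc), S_DK ρ hz h0 h1, qh ρ / ρ, div_ne_zero (qh_ne ρ h0 h1) hρ, C + 24, by positivity,
      fun t ht => ?_⟩
    rw [moeb (Ist_QQ qc_QQ ρ (by linarith)) t]
    refine (hb t ht).trans ?_
    nlinarith

end

end Pool.Agent.W5h80.JO
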