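import Mathlib

/-!
# Measures with finitely many atoms, and convex hulls
-/

set_option autoImplicit false
set_option maxHeartbeats 4000000

open MeasureTheory Filter Topology Set
open scoped NNReal BoundedContinuousFunction

namespace Pool.Agent.W5h80.JO

noncomputable section

/-- unit mass -/
def dr (r : ℝ) : FiniteMeasure ℝ := ⟨Measure.dirac r, inferInstance⟩

theorem dr_cont : Continuous dr := by
  rw [FiniteMeasure.continuous_iff_forall_continuous_integral]
  intro f
  have : (fun x : ℝ => ∫ y, f y ∂(dr x : Measure ℝ)) = fun x => f x := by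
    funext x
    show ∫ y, f y ∂(Measure.dirac x) = f x
    rw [integral_dirac]
  rw [this]
  exact f.continuous

/-- the positive part of `∑ a i δ (r i)` -/
def dm {k : ℕ} (r a : Fin k → ℝ) : FiniteMeasure ℝ := ∑ i, (Real.toNNReal (a i)) • dr (r i)

theorem dm_cont {k : ℕ} : Continuous (fun p : (Fin k → ℝ) × (Fin k → ℝ) => dm p.1 p.2) := by
  unfold dm
  refine continuous_finsetSum _ fun i _ => ?_
  have h1 : Continuous (fun p : (Fin k → ℝ) × (Fin k → ℝ) => Real.toNNReal (p.2 i)) :=
    continuous_real_toNNReal.comp ((continuous_apply i).comp continuous_snd)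
  have h2 : Continuous (fun p : (Fin k → ℝ) × (Fin k → ℝ) => dr (p.1 i)) :=
    dr_cont.comp ((continuous_apply i).comp continuous_fst)
  exact h1.smul h2

theorem dm_coe {k : ℕ} (r a : Fin k → ℝ) : ((dm r a : FiniteMeasure ℝ) : Measure ℝ) =
    ∑ i, (Real.toNNReal (a i)) • Measure.dirac (r i) := by
  unfold dm
  rw [FiniteMeasure.toMeasure_sum]
  refine Finset.sum_congr rfl fun i _ => ?_
  rw [FiniteMeasure.toMeasure_smul]
  rfl

theorem dm_int {k : ℕ} (r a : Fin k → ℝ) (E : ℝ → ℝ) :
    ∫ y, E y ∂((dm r a : FiniteMeasure ℝ) : Measure ℝ) = ∑ i, max (a i) 0 * E (r i) := by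
  rw [dm_coe, integral_finsetSum_measure]
  · refine Finset.sum_congr rfl fun i _ => ?_
    rw [integral_smul_nnreal_measure, integral_dirac, NNReal.smul_def, smul_eq_mul, Real.coe_toNNReal']
  · intro i _
    refine Integrable.smul_measure_nnreal ?_
    exact integrable_dirac (by simp)

theorem dm_supp {k : ℕ} (r a : Fin k → ℝ) (S : Set ℝ) (hS : MeasurableSet S) (h : ∀ i, r i ∈ S) :
    ((dm r a : FiniteMeasure ℝ) : Measure ℝ) Sᶜ = 0 := by
  rw [dm_coe, Measure.finsetSum_apply]
  refine Finset.sum_eq_zero fun i _ => ?_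
  rw [Measure.smul_apply, Measure.dirac_apply' _ hS.compl, indicator_of_notMem (by simpa using h i), smul_zero]

theorem max_sub (x : ℝ) : max x 0 - max (-x) 0 = x := by
  rcases le_total x 0 with h | h
  · rw [max_eq_right h, max_eq_left (by linarith)]; ring
  · rw [max_eq_left h, max_eq_right (by linarith)]; ring

theorem dm_diff {k : ℕ} (r a : Fin k → ℝ) (E : ℝ → ℝ) :
    (∫ y, E y ∂((dm r a : FiniteMeasure ℝ) : Measure ℝ)) - ∫ y, E y ∂((dm r (-a) : FiniteMeasure ℝ) : Measure ℝ) =
      ∑ i, a i * E (r i) := by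
  rw [dm_int, dm_int, ← Finset.sum_sub_distrib]
  refine Finset.sum_congr rfl fun i _ => ?_
  rw [Pi.neg_apply, ← sub_mul, max_sub]

theorem dm_ne {k : ℕ} (r a : Fin k → ℝ) (hr : Function.Injective r) (ha : a ≠ 0) : dm r a ≠ dm r (-a) := by
  intro h
  apply ha
  funext i
  have h1 := dm_diff r a (fun y => if y = r i then 1 else 0)
  rw [h, sub_self] at h1
  rw [Finset.sum_eq_single i] at h1
  · simpa using h1.symm
  · intro j _ hj
    rw [if_neg (fun h => hj (hr h)), mul_zero]
  · intro h2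
    exact absurd (Finset.mem_univ i) h2

/-- `δ`-separated dilates between `δ` and `1/δ` -/
def Sep {k : ℕ} (δ : ℝ) (r : Fin k → ℝ) : Prop :=
  (∀ i, δ ≤ r i ∧ r i ≤ 1 / δ) ∧ ∀ i j, i ≠ j → δ ≤ |r i - r j|

theorem Sep.inj {k : ℕ} {δ : ℝ} (hδ : 0 < δ) {r : Fin k → ℝ} (h : Sep δ r) : Function.Injective r := by
  intro i j hij
  by_contra hne
  have := h.2 i j hne
  rw [hij, sub_self, abs_zero] at this
  linarith

/-- the parameter space -/
def PS (k : ℕ) (δ : ℝ) : Set ((Fin k → ℝ) × (Fin k → ℝ)) := {p | Sep δ p.1 ∧ ‖p.2‖ = 1}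

theorem PS_compact (k : ℕ) (δ : ℝ) : IsCompact (PS k δ) := by
  have h1 : IsCompact ((Set.pi univ fun _ : Fin k => Icc δ (1 / δ)) ×ˢ Metric.closedBall (0 : Fin k → ℝ) 1) :=
    (isCompact_univ_pi fun _ => isCompact_Icc).prod (isCompact_closedBall _ _)
  refine h1.of_isClosed_subset ?_ ?_
  · have e : PS k δ = (⋂ i, {p : (Fin k → ℝ) × (Fin k → ℝ) | δ ≤ p.1 i ∧ p.1 i ≤ 1 / δ}) ∩
        (⋂ i, ⋂ j, {p : (Fin k → ℝ) × (Fin k → ℝ) | i ≠ j → δ ≤ |p.1 i - p.1 j|}) ∩
        {p : (Fin k → ℝ) × (Fin k → ℝ) | ‖p.2‖ = 1} := by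
      ext p
      simp only [PS, Sep, mem_ofPred_eq, mem_inter_iff, mem_iInter]
    rw [e]
    have c1 : ∀ i, Continuous (fun p : (Fin k → ℝ) × (Fin k → ℝ) => p.1 i) := fun i =>
      (continuous_apply i).comp continuous_fst
    refine ((isClosed_iInter fun i => ?_).inter (isClosed_iInter fun i => isClosed_iInter fun j => ?_)).inter ?_
    · exact (isClosed_le continuous_const (c1 i)).inter (isClosed_le (c1 i) continuous_const)
    · by_cases hij : i = j
      · have : {p : (Fin k → ℝ) × (Fin k → ℝ) | i ≠ j → δ ≤ |p.1 i - p.1 j|} = univ := by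
          ext p
          simp [hij]
        rw [this]
        exact isClosed_univ
      · have : {p : (Fin k → ℝ) × (Fin k → ℝ) | i ≠ j → δ ≤ |p.1 i - p.1 j|} = {p | δ ≤ |p.1 i - p.1 j|} := by
          ext p
          simp [hij]
        rw [this]
        exact isClosed_le continuous_const ((c1 i).sub (c1 j)).abs
    · exact isClosed_eq continuous_snd.norm continuous_const
  · rintro ⟨r, a⟩ ⟨⟨h2, _⟩, h3⟩
    refine ⟨fun i _ => h2 i, ?_⟩
    rw [mem_closedBall_zero_iff]
    exact h3.le

/-- from linear functionals to the convex hull -/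
theorem hull {k : ℕ} (S : Set (Fin k → ℝ)) (c : ℝ) (hc : 0 < c)
    (h : ∀ a : Fin k → ℝ, ∃ q ∈ S, c * ‖a‖ ≤ ∑ i, a i * q i) :
    Metric.ball (0 : Fin k → ℝ) (c / (k + 1)) ⊆ convexHull ℝ S := by
  set C := convexHull ℝ S with hC
  have hconv : Convex ℝ C := convex_convexHull ℝ S
  have hcl : Metric.ball (0 : Fin k → ℝ) (c / (k + 1)) ⊆ closure C := by
    intro p hp
    by_contra hcon
    obtain ⟨f, u, hf1, hf2⟩ := geometric_hahn_banach_closed_point hconv.closure isClosed_closure hcon
    set a : Fin k → ℝ := fun i => f (fun j => if i = j then 1 else 0) with ha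
    have hfa : ∀ q : Fin k → ℝ, f q = ∑ i, a i * q i := by
      intro q
      have := LinearMap.pi_apply_eq_sum_univ (f : (Fin k → ℝ) →ₗ[ℝ] ℝ) q
      simp only [ContinuousLinearMap.coe_coe, smul_eq_mul] at this
      rw [this]
      refine Finset.sum_congr rfl fun i _ => ?_
      rw [ha, mul_comm]
    obtain ⟨q, hq, hq2⟩ := h a
    have h1 := hf1 q (subset_closure (subset_convexHull ℝ S hq))
    rw [hfa] at h1 hf2
    have h2 : ∑ i, a i * p i ≤ k * (‖a‖ * (c / (k + 1))) := by
      have h3 : ∀ i ∈ Finset.univ, a i * p i ≤ ‖a‖ * (c / (k + 1)) := by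
        intro i _
        rw [mem_ball_zero_iff] at hp
        have g1 := norm_le_pi_norm a i
        have g2 := (norm_le_pi_norm p i).trans hp.le
        rw [Real.norm_eq_abs] at g1 g2
        calc a i * p i ≤ |a i * p i| := le_abs_self _
          _ = |a i| * |p i| := abs_mul _ _
          _ ≤ ‖a‖ * (c / (k + 1)) := mul_le_mul g1 g2 (abs_nonneg _) (norm_nonneg _)
      refine (Finset.sum_le_card_nsmul _ _ _ h3).trans (le_of_eq ?_)
      rw [Finset.card_univ, Fintype.card_fin, nsmul_eq_mul]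
    have h3 : (k:ℝ) * (‖a‖ * (c / (k + 1))) ≤ c * ‖a‖ := by
      have hk : (0:ℝ) ≤ k := Nat.cast_nonneg k
      have : (k:ℝ) * (‖a‖ * (c / (k + 1))) = (c * ‖a‖) * (k / (k + 1)) := by ring
      rw [this]
      refine mul_le_of_le_one_right (by positivity) ?_
      rw [div_le_one (by positivity)]
      linarith
    linarith
  have hint : (interior C).Nonempty := by
    rw [hconv.interior_nonempty_iff_affineSpan_eq_top]
    have hcl2 : closure C ⊆ (affineSpan ℝ C : Set (Fin k → ℝ)) :=
      closure_minimal (subset_affineSpan ℝ C) (AffineSubspace.closed_of_finiteDimensional _)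
    have h1 := hcl.trans hcl2
    have h2 : affineSpan ℝ (Metric.ball (0 : Fin k → ℝ) (c / (k + 1))) = ⊤ :=
      Metric.isOpen_ball.affineSpan_eq_top ⟨0, Metric.mem_ball_self (by positivity)⟩
    have h3 := affineSpan_le.2 h1
    rw [h2] at h3
    exact top_le_iff.1 h3
  have h4 : interior (closure C) = interior C := hconv.interior_closure_eq_interior_of_nonempty_interior hint
  intro p hp
  have h5 : p ∈ interior (closure C) := interior_mono hcl (by rwa [Metric.isOpen_ball.interior_eq])
  rw [h4] at h5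
  exact interior_subset h5

end

end Pool.Agent.W5h80.JO
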