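import Pool.Agent.W5h80.JO.F
import Pool.Agent.W5h80.JO.H

/-!
# Joint oscillation at dilates
-/

set_option autoImplicit false
set_option maxHeartbeats 4000000

open Complex MeasureTheory Filter Topology Set
open H313.TK
open scoped NNReal BoundedContinuousFunction

namespace Pool.Agent.W5h80.JO

noncomputable section

theorem dilates {E' E : ℝ → ℝ} (hE : Sig E') (hEE : ∀ w, 0 ≤ w → E' w = E (Real.exp w)) (k : ℕ) (δ : ℝ) (hδ : 0 < δ) :
    ∃ c : ℝ, 0 < c ∧ ∀ᶠ x : ℝ in atTop, ∀ r : Fin k → ℝ, Sep δ r → ∀ a : Fin k → ℝ,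
      (∃ y ∈ Icc x (x * Real.log x), c * ‖a‖ * Real.sqrt y ≤ ∑ i, a i * E (r i * y)) ∧
      c * ‖a‖ ≤ ∫ y in x..(x * Real.log x), max (∑ i, a i * E (r i * y)) 0 * y ^ (-(3 / 2) : ℝ) := by
  set β : ℝ := max δ (1 / δ) with hβ
  set Φ : (Fin k → ℝ) × (Fin k → ℝ) → FiniteMeasure ℝ × FiniteMeasure ℝ := fun p => (dm p.1 p.2, dm p.1 (-p.2)) with hΦ
  have hΦc : Continuous Φ :=
    dm_cont.prodMk (dm_cont.comp (continuous_fst.prodMk continuous_snd.neg))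
  have hK : IsCompact (Φ '' PS k δ) := (PS_compact k δ).image hΦc
  have hKP : Φ '' PS k δ ⊆ Pairs δ β := by
    rintro _ ⟨p, ⟨hp1, hp2⟩, rfl⟩
    have hr : ∀ i, p.1 i ∈ Icc δ β := fun i => ⟨(hp1.1 i).1, (hp1.1 i).2.trans (le_max_right _ _)⟩
    refine ⟨dm_supp _ _ _ measurableSet_Icc hr, dm_supp _ _ _ measurableSet_Icc hr, ?_⟩
    refine dm_ne p.1 p.2 (hp1.inj hδ) ?_
    intro h
    rw [h, norm_zero] at hp2
    exact zero_ne_one hp2
  obtain ⟨c, hc, hev⟩ := uniform hE hEE hδ (le_max_left _ _) _ hK hKP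
  refine ⟨c, hc, ?_⟩
  filter_upwards [hev, eventually_ge_atTop (Real.exp 1)] with x hx hx1 r hr a
  by_cases ha : a = 0
  · have hx0 : 0 < x := (Real.exp_pos 1).trans_le hx1
    have hl1 : 1 ≤ Real.log x := by rwa [Real.le_log_iff_exp_le hx0]
    refine ⟨⟨x, ⟨le_rfl, le_mul_of_one_le_right hx0.le hl1⟩, ?_⟩, ?_⟩
    · rw [ha]
      simp
    · rw [ha]
      simp
  · have hn : 0 < ‖a‖ := norm_pos_iff.2 ha
    set b : Fin k → ℝ := ‖a‖⁻¹ • a with hb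
    have hbn : ‖b‖ = 1 := by
      rw [hb, norm_smul, norm_inv, norm_norm, inv_mul_cancel₀ hn.ne']
    obtain ⟨⟨y, hy, hy2⟩, hI⟩ := hx (Φ (r, b)) ⟨(r, b), ⟨hr, hbn⟩, rfl⟩
    have e1 : ∀ y : ℝ, (∫ q, E (q * y) ∂((Φ (r, b)).1 : Measure ℝ)) - ∫ q, E (q * y) ∂((Φ (r, b)).2 : Measure ℝ) =
        ∑ i, b i * E (r i * y) := fun y => dm_diff r b (fun q => E (q * y))
    have e2 : ∀ y : ℝ, ∑ i, a i * E (r i * y) = ‖a‖ * ∑ i, b i * E (r i * y) := by
      intro y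
      rw [Finset.mul_sum]
      refine Finset.sum_congr rfl fun i _ => ?_
      rw [hb, Pi.smul_apply, smul_eq_mul]
      field_simp
    refine ⟨⟨y, hy, ?_⟩, ?_⟩
    · rw [e1] at hy2
      rw [e2]
      calc c * ‖a‖ * Real.sqrt y = ‖a‖ * (c * Real.sqrt y) := by ring
        _ ≤ _ := mul_le_mul_of_nonneg_left hy2 hn.le
    · simp_rw [e1] at hI
      simp_rw [e2]
      have e3 : ∀ y : ℝ, max (‖a‖ * ∑ i, b i * E (r i * y)) 0 * y ^ (-(3 / 2) : ℝ) =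
          ‖a‖ * (max (∑ i, b i * E (r i * y)) 0 * y ^ (-(3 / 2) : ℝ)) := by
        intro y
        rw [← mul_assoc]
        congr 1
        rcases le_total (∑ i, b i * E (r i * y)) 0 with h | h
        · rw [max_eq_right h, max_eq_right (mul_nonpos_of_nonneg_of_nonpos hn.le h), mul_zero]
        · rw [max_eq_left h, max_eq_left (mul_nonneg hn.le h)]
      simp_rw [e3]
      rw [intervalIntegral.integral_const_mul, mul_comm c]
      exact mul_le_mul_of_nonneg_left hI hn.le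

/-- the curve of normalised values at the dilates -/
def crv {k : ℕ} (E : ℝ → ℝ) (r : Fin k → ℝ) (x : ℝ) : Set (Fin k → ℝ) :=
  {q | ∃ y ∈ Icc x (x * Real.log x), q = fun i => E (r i * y) / Real.sqrt y}

theorem dilates_hull {E' E : ℝ → ℝ} (hE : Sig E') (hEE : ∀ w, 0 ≤ w → E' w = E (Real.exp w)) (k : ℕ) (δ : ℝ)
    (hδ : 0 < δ) :
    ∃ c : ℝ, 0 < c ∧ ∀ᶠ x : ℝ in atTop, ∀ r : Fin k → ℝ, Sep δ r →
      Metric.ball (0 : Fin k → ℝ) c ⊆ convexHull ℝ (crv E r x) := by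
  obtain ⟨c, hc, hev⟩ := dilates hE hEE k δ hδ
  refine ⟨c / (k + 1), by positivity, ?_⟩
  filter_upwards [hev, eventually_gt_atTop (0:ℝ)] with x hx hx0 r hr
  refine hull _ c hc fun a => ?_
  obtain ⟨⟨y, hy, hy2⟩, _⟩ := hx r hr a
  refine ⟨_, ⟨y, hy, rfl⟩, ?_⟩
  have hy0 : 0 < Real.sqrt y := Real.sqrt_pos.2 (hx0.trans_le hy.1)
  have e : ∑ i, a i * (E (r i * y) / Real.sqrt y) = (∑ i, a i * E (r i * y)) / Real.sqrt y := by
    rw [Finset.sum_div]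
    refine Finset.sum_congr rfl fun i _ => ?_
    ring
  rw [e, le_div_iff₀ hy0]
  exact hy2

end

end Pool.Agent.W5h80.JO
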