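import Pool.Agent.W5h80.JO.S

/-!
# The general theorem
-/

set_option autoImplicit false
set_option maxHeartbeats 4000000

open Complex MeasureTheory Filter Topology Set
open H313.TK

namespace Pool.Agent.W5h80.JO

noncomputable section

/-- the difference of two averages -/
def Dv (E : ℝ → ℝ) (ν₁ ν₂ : Measure ℝ) (u : ℝ) : ℝ := Av E ν₁ u - Av E ν₂ u

/-- the difference of two transforms -/
def Dt (ν₁ ν₂ : Measure ℝ) (s : ℂ) : ℂ := Tr ν₁ s - Tr ν₂ s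

theorem DK_int {f : ℝ → ℝ} (hf : Measurable f) {B : ℝ} (hB : 0 ≤ B) (hb : ∀ u, |f u| ≤ B * Real.exp u) {k : ℝ → ℂ}
    (hk : DK k) (t : ℝ) : Integrable (fun v : ℝ => (f (t - v) : ℂ) * k v) := by
  obtain ⟨C, hC, hkb⟩ := hk.bd
  have hkc := hk.cont
  refine ((int_exp_abs 1 one_pos).const_mul (B * C * (4 * Real.exp t))).mono' ?_ (ae_of_all _ fun v => ?_)
  · have hkm := hkc.measurable
    exact (by fun_prop : Measurable fun v => (f (t - v) : ℂ) * k v).aestronglyMeasurable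
  · rw [norm_mul, Complex.norm_real, Real.norm_eq_abs]
    calc |f (t - v)| * ‖k v‖ ≤ (B * Real.exp (t - v)) * (C * W v) :=
          mul_le_mul (hb _) (hkb _) (norm_nonneg _) (by positivity)
      _ = B * C * (Real.exp (t - v) * W v) := by ring
      _ ≤ B * C * (4 * Real.exp t * Real.exp (-(1 * |v|))) := mul_le_mul_of_nonneg_left (kpW t v) (by positivity)
      _ = _ := by ring

/-- the core inequality, uniformly in a family of measures -/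
theorem general_core {X : Type*} {E : ℝ → ℝ} (hE : Sig E) (R m : ℝ) (hR : 0 ≤ R) (hm : 0 ≤ m) (ν₁ ν₂ : X → Measure ℝ)
    (h1 : ∀ x, Bdd R m (ν₁ x)) (h2 : ∀ x, Bdd R m (ν₂ x)) (F : Finset ℂ)
    (hF : ∀ ρ ∈ F, riemannZeta ρ = 0 ∧ ρ.re = 1 / 2) (η : ℝ) (hη : 0 < η)
    (hηF : ∀ x, ∃ ρ ∈ F, η ≤ ‖Dt (ν₁ x) (ν₂ x) ρ‖) :
    ∃ D : ℝ, 0 < D ∧ (∀ x, Measurable (fun u => Dv E (ν₁ x) (ν₂ x) u / D)) ∧
      (∀ x u, |Dv E (ν₁ x) (ν₂ x) u / D| ≤ Real.exp u) ∧ ∃ c : ℝ, 0 < c ∧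
      ∀ᶠ t : ℝ in atTop, ∀ x, c * Real.exp (t / 2) ≤ ∫ v : ℝ, max (Dv E (ν₁ x) (ν₂ x) (t - v) / D) 0 * kp v := by
  obtain ⟨B, hB, hb⟩ := hE.bd
  obtain ⟨C, hC, havg⟩ := hE.avg
  have hasy : ∀ ρ : F, ∃ h : ℝ → ℂ, DK h ∧ ∃ A : ℂ, A ≠ 0 ∧ ∃ C : ℝ, 0 ≤ C ∧
      ∀ t : ℝ, 0 ≤ t → ‖(∫ v : ℝ, (E (t - v) : ℂ) * h v) - A * cexp ((ρ : ℂ) * t)‖ ≤ C * (1 + t) :=
    fun ρ => hE.asy ρ (hF ρ ρ.2).1 (hF ρ ρ.2).2
  choose h hDK A hA K hK hbd using hasy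
  -- uniform constants
  have hAmin : ∃ a : ℝ, 0 < a ∧ ∀ ρ : F, a ≤ ‖A ρ‖ := by
    by_cases hne : Nonempty F
    · obtain ⟨ρ₀, hρ₀⟩ := Finite.exists_min (fun ρ : F => ‖A ρ‖)
      exact ⟨‖A ρ₀‖, norm_pos_iff.2 (hA ρ₀), hρ₀⟩
    · exact ⟨1, one_pos, fun ρ => absurd ⟨ρ⟩ hne⟩
  obtain ⟨a, ha, hAa⟩ := hAmin
  have hKmax : ∃ k : ℝ, 0 ≤ k ∧ ∀ ρ : F, K ρ ≤ k :=
    ⟨∑ ρ, K ρ, Finset.sum_nonneg fun ρ _ => hK ρ, fun ρ => Finset.single_le_sum (fun i _ => hK i) (Finset.mem_univ ρ)⟩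
  obtain ⟨k, hk, hKk⟩ := hKmax
  -- normalisation
  set D : ℝ := 2 * (B * Real.exp R * m) + 1 with hD
  have hD0 : 0 < D := by positivity
  set f : X → ℝ → ℝ := fun x u => Dv E (ν₁ x) (ν₂ x) u / D with hf
  have hfin1 : ∀ x, IsFiniteMeasure (ν₁ x) := fun x => (h1 x).fin
  have hfin2 : ∀ x, IsFiniteMeasure (ν₂ x) := fun x => (h2 x).fin
  have hAm1 : ∀ x, Measurable (Av E (ν₁ x)) := fun x => Av_meas hE.meas _
  have hAm2 : ∀ x, Measurable (Av E (ν₂ x)) := fun x => Av_meas hE.meas _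
  have hfm : ∀ x, Measurable (f x) := fun x => ((hAm1 x).sub (hAm2 x)).div_const D
  have hfb : ∀ x u, |f x u| ≤ Real.exp u := by
    intro x u
    simp only [hf]
    rw [abs_div, abs_of_pos hD0, div_le_iff₀ hD0]
    have g1 := Av_bd hB hb (h1 x) u
    have g2 := Av_bd hB hb (h2 x) u
    have g3 : |Dv E (ν₁ x) (ν₂ x) u| ≤ |Av E (ν₁ x) u| + |Av E (ν₂ x) u| := abs_sub _ _
    have g4 := Real.exp_pos u
    rw [hD]
    nlinarith
  have hB1 : 0 ≤ B * Real.exp R * m := by positivity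
  have hii : ∀ x (t : ℝ) (g : ℝ → ℂ), DK g → ∫ v : ℝ, (f x (t - v) : ℂ) * g v =
      ((∫ v : ℝ, (Av E (ν₁ x) (t - v) : ℂ) * g v) - ∫ v : ℝ, (Av E (ν₂ x) (t - v) : ℂ) * g v) / D := by
    intro x t g hg
    rw [← integral_sub (DK_int (hAm1 x) hB1 (Av_bd hB hb (h1 x)) hg t) (DK_int (hAm2 x) hB1 (Av_bd hB hb (h2 x)) hg t),
      ← integral_div]
    refine integral_congr_ae (ae_of_all _ fun v => ?_)
    simp only [hf, Dv]
    push_cast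
    ring
  have hav : ∀ᶠ t : ℝ in atTop, ∀ x, |∫ v : ℝ, f x (t - v) * kp v| ≤ 2 * (C * m) := by
    filter_upwards [eventually_ge_atTop R] with t ht x
    have e1 : ∫ v : ℝ, f x (t - v) * kp v =
        ((∫ v : ℝ, Av E (ν₁ x) (t - v) * kp v) - ∫ v : ℝ, Av E (ν₂ x) (t - v) * kp v) / D := by
      have h3 := hii x t kc kc_DK
      have h4 : ∀ g : ℝ → ℝ, ∫ v : ℝ, (g (t - v) : ℂ) * kc v = ((∫ v : ℝ, g (t - v) * kp v : ℝ) : ℂ) := by
        intro g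
        rw [← integral_complex_ofReal]
        refine integral_congr_ae (ae_of_all _ fun v => ?_)
        simp [kc]
      rw [h4, h4, h4] at h3
      exact_mod_cast h3
    rw [e1, abs_div, abs_of_pos hD0, div_le_iff₀ hD0]
    have g1 := Av_avg hE.meas hB hb (h1 x) hC havg t ht
    have g2 := Av_avg hE.meas hB hb (h2 x) hC havg t ht
    have g3 := abs_sub (∫ v : ℝ, Av E (ν₁ x) (t - v) * kp v) (∫ v : ℝ, Av E (ν₂ x) (t - v) * kp v)
    have g4 : 0 ≤ 2 * (C * m) := by positivity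
    have g5 : 2 * (C * m) * 1 ≤ 2 * (C * m) * D := mul_le_mul_of_nonneg_left (by rw [hD]; linarith) g4
    linarith
  have hexp : ∀ᶠ t : ℝ in atTop, 2 * (k * (1 + t + R) * m) ≤ a * η / 2 * Real.exp (t / 2) := by
    have h3 : Tendsto (fun t : ℝ => Real.exp (t / 2) / (t / 2)) atTop atTop := by
      have h4 := (Real.tendsto_exp_div_pow_atTop 1).comp
        (tendsto_id.atTop_div_const (by norm_num : (0:ℝ) < 2) : Tendsto (fun t : ℝ => t / 2) atTop atTop)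
      refine h4.congr fun t => ?_
      simp
    have h5 : 0 < a * η / 2 := by positivity
    filter_upwards [h3.eventually_ge_atTop (2 * (k * (2 + R) * m) * 2 / (a * η / 2)), eventually_ge_atTop (1:ℝ)]
      with t g1 g2
    rw [div_le_div_iff₀ h5 (by linarith)] at g1
    have g3 : 0 ≤ 2 * k * m := by positivity
    have g4 : 1 + t + R ≤ (2 + R) * t := by nlinarith
    have g5 := mul_le_mul_of_nonneg_left g4 g3
    linarith
  have hlow : ∀ᶠ t : ℝ in atTop, ∀ x, ∃ ρ : F, a * η / 2 / D * Real.exp (t / 2) ≤ ‖∫ v : ℝ, (f x (t - v) : ℂ) * h ρ v‖ := by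
    filter_upwards [hexp, eventually_ge_atTop R, eventually_ge_atTop (0:ℝ)] with t g1 g2 g3 x
    obtain ⟨ρ, hρF, hρ⟩ := hηF x
    refine ⟨⟨ρ, hρF⟩, ?_⟩
    set r : F := ⟨ρ, hρF⟩ with hr
    rw [hii x t _ (hDK r), norm_div, Complex.norm_real, Real.norm_eq_abs, abs_of_pos hD0]
    have e1 := Av_asy hE.meas hB hb hR (h1 x) (hDK r) (hK r) (hbd r) t g2
    have e2 := Av_asy hE.meas hB hb hR (h2 x) (hDK r) (hK r) (hbd r) t g2
    set I1 : ℂ := ∫ v : ℝ, (Av E (ν₁ x) (t - v) : ℂ) * h r v with hI1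
    set I2 : ℂ := ∫ v : ℝ, (Av E (ν₂ x) (t - v) : ℂ) * h r v with hI2
    have e3 : A r * Dt (ν₁ x) (ν₂ x) ρ * cexp (ρ * t) = (I1 - I2) - ((I1 - A r * Tr (ν₁ x) ρ * cexp (ρ * t)) -
        (I2 - A r * Tr (ν₂ x) ρ * cexp (ρ * t))) := by
      unfold Dt
      ring
    have e4 : ‖A r * Dt (ν₁ x) (ν₂ x) ρ * cexp (ρ * t)‖ = ‖A r‖ * ‖Dt (ν₁ x) (ν₂ x) ρ‖ * Real.exp (t / 2) := by
      rw [norm_mul, norm_mul, norm_tw', (hF ρ hρF).2]
      congr 2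
      ring
    have e5 : a * η ≤ ‖A r‖ * ‖Dt (ν₁ x) (ν₂ x) ρ‖ := mul_le_mul (hAa r) hρ hη.le (norm_nonneg _)
    have e6 : K r * (1 + t + R) * m ≤ k * (1 + t + R) * m :=
      mul_le_mul_of_nonneg_right (mul_le_mul_of_nonneg_right (hKk r) (by linarith)) hm
    have e7 : ‖A r * Dt (ν₁ x) (ν₂ x) ρ * cexp (ρ * t)‖ ≤ ‖I1 - I2‖ + (K r * (1 + t + R) * m + K r * (1 + t + R) * m) := by
      rw [e3]
      refine (norm_sub_le _ _).trans (add_le_add le_rfl ((norm_sub_le _ _).trans (add_le_add e1 e2)))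
    rw [e4] at e7
    have e8 := mul_le_mul_of_nonneg_right e5 (Real.exp_pos (t / 2)).le
    rw [div_mul_eq_mul_div]
    refine div_le_div_of_nonneg_right ?_ hD0.le
    linarith
  obtain ⟨c, hc, hcore⟩ := coreU f hfm hfb (2 * (C * m)) hav h hDK (a * η / 2 / D) (by positivity) hlow
  exact ⟨D, hD0, hfm, hfb, c, hc, hcore⟩

/-- **General theorem.** -/
theorem general {X : Type*} {E : ℝ → ℝ} (hE : Sig E) (R m : ℝ) (hR : 0 ≤ R) (hm : 0 ≤ m) (ν₁ ν₂ : X → Measure ℝ)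
    (h1 : ∀ x, Bdd R m (ν₁ x)) (h2 : ∀ x, Bdd R m (ν₂ x)) (F : Finset ℂ)
    (hF : ∀ ρ ∈ F, riemannZeta ρ = 0 ∧ ρ.re = 1 / 2) (η : ℝ) (hη : 0 < η)
    (hηF : ∀ x, ∃ ρ ∈ F, η ≤ ‖Dt (ν₁ x) (ν₂ x) ρ‖) :
    ∃ c : ℝ, 0 < c ∧ (∀ᶠ l : ℝ in atTop, ∀ x, ∃ u ∈ Icc l (l + Real.log l),
      c * Real.exp (u / 2) ≤ Dv E (ν₁ x) (ν₂ x) u) ∧
      ∀ᶠ l : ℝ in atTop, ∀ x, c ≤ ∫ u in Icc l (l + Real.log l), max (Dv E (ν₁ x) (ν₂ x) u) 0 * Real.exp (-(u / 2)) := by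
  obtain ⟨D, hD0, hfm, hfb, c, hc, hcore⟩ := general_core hE R m hR hm ν₁ ν₂ h1 h2 F hF η hη hηF
  obtain ⟨c1, hc1, hs⟩ := supU (fun x u => Dv E (ν₁ x) (ν₂ x) u / D) hfm hfb c hc hcore
  obtain ⟨c2, hc2, hi⟩ := intU (fun x u => Dv E (ν₁ x) (ν₂ x) u / D) hfm hfb c hc hcore
  refine ⟨min (c1 * D) (c2 * D), by positivity, ?_, ?_⟩
  · filter_upwards [hs] with l hl x
    obtain ⟨u, hu, hu2⟩ := hl x
    refine ⟨u, hu, ?_⟩
    rw [le_div_iff₀ hD0] at hu2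
    have h3 : min (c1 * D) (c2 * D) * Real.exp (u / 2) ≤ c1 * D * Real.exp (u / 2) :=
      mul_le_mul_of_nonneg_right (min_le_left _ _) (Real.exp_pos _).le
    linarith
  · filter_upwards [hi] with l hl x
    have h3 := hl x
    have h4 : ∫ u in Icc l (l + Real.log l), max (Dv E (ν₁ x) (ν₂ x) u / D) 0 * Real.exp (-(u / 2)) =
        (∫ u in Icc l (l + Real.log l), max (Dv E (ν₁ x) (ν₂ x) u) 0 * Real.exp (-(u / 2))) / D := by
      rw [← integral_div]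
      refine integral_congr_ae (ae_of_all _ fun u => ?_)
      simp only
      have : max (Dv E (ν₁ x) (ν₂ x) u / D) 0 = max (Dv E (ν₁ x) (ν₂ x) u) 0 / D := by
        rcases le_total (Dv E (ν₁ x) (ν₂ x) u) 0 with h | h
        · rw [max_eq_right h, max_eq_right (div_nonpos_of_nonpos_of_nonneg h hD0.le), zero_div]
        · rw [max_eq_left h, max_eq_left (div_nonneg h hD0.le)]
      rw [this]
      ring
    rw [h4, le_div_iff₀ hD0] at h3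
    exact (min_le_right _ _).trans h3

end

end Pool.Agent.W5h80.JO
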