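import Pool.Agent.H313R3.TK.H

/-!
# Uniform windows for families of functions
-/

set_option autoImplicit false
set_option maxHeartbeats 4000000

open Complex MeasureTheory Filter Topology Set
open H313.TK

namespace Pool.Agent.W5h80.JO

noncomputable section

theorem lim_small (B c : ℝ) (hc : 0 < c) : ∀ᶠ l : ℝ in atTop, B * (l * Real.exp (-(l / 4))) ≤ c / 2 := by
  have h1 : Tendsto (fun l : ℝ => l * Real.exp (-(l / 4))) atTop (𝓝 0) := by
    have h2 : Tendsto (fun l : ℝ => l / 4) atTop atTop := tendsto_id.atTop_div_const (by norm_num)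
    have h3 := (Real.tendsto_pow_mul_exp_neg_atTop_nhds_zero 1).comp h2
    have h4 : Tendsto (fun l : ℝ => 4 * ((l / 4) ^ 1 * Real.exp (-(l / 4)))) atTop (𝓝 (4 * 0)) := h3.const_mul 4
    rw [mul_zero] at h4
    refine h4.congr fun l => ?_
    ring
  have h5 : Tendsto (fun l : ℝ => B * (l * Real.exp (-(l / 4)))) atTop (𝓝 (B * 0)) := h1.const_mul B
  rw [mul_zero] at h5
  exact h5.eventually (ge_mem_nhds (by positivity))

theorem max_abs (x : ℝ) : |max x 0| ≤ |x| := by
  rw [abs_of_nonneg (le_max_right _ _)]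
  exact max_le (le_abs_self _) (abs_nonneg _)

/-- restriction of the averages to a window, uniformly in a family -/
theorem winU {X : Type*} (f : X → ℝ → ℝ) (hf : ∀ x, Measurable (f x)) (hfb : ∀ x u, |f x u| ≤ Real.exp u)
    (c : ℝ) (hc : 0 < c)
    (hcore : ∀ᶠ t : ℝ in atTop, ∀ x, c * Real.exp (t / 2) ≤ ∫ v : ℝ, max (f x (t - v)) 0 * kp v) :
    ∀ᶠ l : ℝ in atTop, ∀ x, c / 2 * Real.exp (ct l / 2) ≤
        ∫ v in Icc (-(Real.log l / 2)) (Real.log l / 2), max (f x (ct l - v)) 0 * kp v := by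
  have hC0 := C0_nonneg
  have hD1 := D1_nonneg
  set B : ℝ := 8 * C0 * D1 with hB
  have hB0 : 0 ≤ B := by positivity
  filter_upwards [ct_tendsto.eventually hcore, lim_small B c hc, eventually_ge_atTop (1:ℝ)]
    with l h1 h3 h4 x
  set a : ℝ := Real.log l / 2 with ha
  have hl0 : 0 < l := by linarith
  have ha0 : 0 ≤ a := by rw [ha]; have := Real.log_nonneg h4; positivity
  have hfx := hf x
  have k1 := h1 x
  have k2 := tail (fun u => max (f x u) 0) (by fun_prop) (fun u => le_max_right _ _)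
    (fun u => (le_abs_self _).trans ((max_abs _).trans (hfb x u))) (ct l) a ha0
  have k3 : Real.exp (ct l + a) * W (-a) ≤ l * Real.exp (l / 4) := by
    have e1 : Real.exp (ct l + a) = l * Real.exp l := by
      have : ct l + a = Real.log l + l := by unfold ct; rw [ha]; ring
      rw [this, Real.exp_add, Real.exp_log hl0]
    have e2 : W (-a) ≤ Real.exp (-(3 / 4 * l)) := by
      unfold W
      refine Real.exp_le_exp.2 ?_
      rw [max_eq_right (by linarith), abs_neg, abs_of_nonneg ha0]
      have e3 : 2 * a = Real.log l := by rw [ha]; ring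
      rw [e3, Real.exp_log hl0]
      have := Real.pi_gt_three
      nlinarith
    rw [e1]
    calc l * Real.exp l * W (-a) ≤ l * Real.exp l * Real.exp (-(3 / 4 * l)) :=
          mul_le_mul_of_nonneg_left e2 (by positivity)
      _ = l * (Real.exp l * Real.exp (-(3 / 4 * l))) := by ring
      _ = _ := by rw [← Real.exp_add]; congr 2; ring
  have k4 : B * (Real.exp (ct l + a) * W (-a)) ≤ c / 2 * Real.exp (ct l / 2) := by
    have e1 : B * (Real.exp (ct l + a) * W (-a)) ≤ B * (l * Real.exp (l / 4)) := mul_le_mul_of_nonneg_left k3 hB0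
    have e2 : B * (l * Real.exp (l / 4)) = (B * (l * Real.exp (-(l / 4)))) * Real.exp (l / 2) := by
      have : Real.exp (l / 4) = Real.exp (-(l / 4)) * Real.exp (l / 2) := by
        rw [← Real.exp_add]; congr 1; ring
      rw [this]
      ring
    have e3 : Real.exp (l / 2) ≤ Real.exp (ct l / 2) := by
      refine Real.exp_le_exp.2 ?_
      have : l ≤ ct l := by unfold ct; linarith
      linarith
    calc B * (Real.exp (ct l + a) * W (-a)) ≤ (B * (l * Real.exp (-(l / 4)))) * Real.exp (l / 2) := by rw [← e2]; exact e1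
      _ ≤ c / 2 * Real.exp (l / 2) := mul_le_mul_of_nonneg_right h3 (Real.exp_pos _).le
      _ ≤ _ := mul_le_mul_of_nonneg_left e3 (by positivity)
  linarith

/-- sup version -/
theorem supU {X : Type*} (f : X → ℝ → ℝ) (hf : ∀ x, Measurable (f x)) (hfb : ∀ x u, |f x u| ≤ Real.exp u)
    (c : ℝ) (hc : 0 < c)
    (hcore : ∀ᶠ t : ℝ in atTop, ∀ x, c * Real.exp (t / 2) ≤ ∫ v : ℝ, max (f x (t - v)) 0 * kp v) :
    ∃ c' : ℝ, 0 < c' ∧ ∀ᶠ l : ℝ in atTop, ∀ x, ∃ u ∈ Icc l (l + Real.log l), c' * Real.exp (u / 2) ≤ f x u := by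
  have hev := winU f hf hfb c hc hcore
  have hC0 := C0_nonneg
  have hD1 := D1_nonneg
  obtain ⟨hmi, hmass⟩ := mass_le (1 / 2) (by norm_num) (by norm_num)
  refine ⟨c / 2 / (4 * C0 * D1 + 1), by positivity, ?_⟩
  filter_upwards [hev, eventually_ge_atTop (1:ℝ)] with l h1 h3 x
  by_contra hcon
  push Not at hcon
  set a : ℝ := Real.log l / 2 with ha
  set δ : ℝ := c / 2 / (4 * C0 * D1 + 1) with hδ
  have hδ0 : 0 < δ := by positivity
  have ha0 : 0 ≤ a := by rw [ha]; have := Real.log_nonneg h3; positivity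
  have k1 := h1 x
  have hfx := hf x
  have hi := avg_int (fun u => max (f x u) 0) (by fun_prop) (fun u => (max_abs _).trans (hfb x u)) (ct l)
  have k2 : ∫ v in Icc (-a) a, max (f x (ct l - v)) 0 * kp v ≤
      ∫ v in Icc (-a) a, δ * Real.exp (ct l / 2) * (Real.exp (-(1 / 2 * v)) * kp v) := by
    refine setIntegral_mono_on hi.integrableOn ((hmi.const_mul _).integrableOn) measurableSet_Icc fun v hv => ?_
    have hu : ct l - v ∈ Icc l (l + Real.log l) := by
      unfold ct
      constructor <;> linarith [hv.1, hv.2]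
    have h5 : max (f x (ct l - v)) 0 ≤ δ * Real.exp ((ct l - v) / 2) :=
      max_le (hcon _ hu).le (by positivity)
    calc max (f x (ct l - v)) 0 * kp v ≤ δ * Real.exp ((ct l - v) / 2) * kp v :=
          mul_le_mul_of_nonneg_right h5 (kp_nonneg v)
      _ = δ * (Real.exp (ct l / 2) * Real.exp (-(1 / 2 * v))) * kp v := by
          rw [← Real.exp_add]; congr 3; ring
      _ = _ := by ring
  have k3 : ∫ v in Icc (-a) a, δ * Real.exp (ct l / 2) * (Real.exp (-(1 / 2 * v)) * kp v) ≤
      δ * Real.exp (ct l / 2) * (4 * C0 * D1) := by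
    rw [integral_const_mul]
    refine mul_le_mul_of_nonneg_left ?_ (by positivity)
    refine (setIntegral_le_integral hmi (ae_of_all _ fun v => ?_)).trans hmass
    exact mul_nonneg (Real.exp_pos _).le (kp_nonneg v)
  have k4 := (k1.trans k2).trans k3
  have k5 : δ * Real.exp (ct l / 2) * (4 * C0 * D1) = c / 2 * Real.exp (ct l / 2) * ((4 * C0 * D1) / (4 * C0 * D1 + 1)) := by
    rw [hδ]
    field_simp
  rw [k5] at k4
  have k6 : (4 * C0 * D1) / (4 * C0 * D1 + 1) < 1 := by
    rw [div_lt_one (by positivity)]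
    linarith
  have k7 : 0 < c / 2 * Real.exp (ct l / 2) := by positivity
  nlinarith

theorem kp_exp (v : ℝ) : kp v ≤ 4 * C0 * Real.exp (v / 2) := by
  have h1 := (kp_bounds v).2
  have h2 := W_decay v
  have h3 : W v ≤ W v * Real.exp (2 * |v|) :=
    le_mul_of_one_le_right (W_pos v).le (Real.one_le_exp (by positivity))
  have h4 : Real.exp (-|v|) ≤ Real.exp (v / 2) := by
    refine Real.exp_le_exp.2 ?_
    have := neg_abs_le v
    have := abs_nonneg v
    linarith
  calc kp v ≤ C0 * W v := h1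
    _ ≤ C0 * (4 * Real.exp (v / 2)) := mul_le_mul_of_nonneg_left (by linarith) C0_nonneg
    _ = _ := by ring

/-- integral version -/
theorem intU {X : Type*} (f : X → ℝ → ℝ) (hf : ∀ x, Measurable (f x)) (hfb : ∀ x u, |f x u| ≤ Real.exp u)
    (c : ℝ) (hc : 0 < c)
    (hcore : ∀ᶠ t : ℝ in atTop, ∀ x, c * Real.exp (t / 2) ≤ ∫ v : ℝ, max (f x (t - v)) 0 * kp v) :
    ∃ c' : ℝ, 0 < c' ∧ ∀ᶠ l : ℝ in atTop, ∀ x,
      c' ≤ ∫ u in Icc l (l + Real.log l), max (f x u) 0 * Real.exp (-(u / 2)) := by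
  have hev := winU f hf hfb c hc hcore
  have hC0 := C0_nonneg
  refine ⟨c / 2 / (4 * C0 + 1), by positivity, ?_⟩
  filter_upwards [hev, eventually_ge_atTop (1:ℝ)] with l h1 h3 x
  set a : ℝ := Real.log l / 2 with ha
  have k1 := h1 x
  have hfx := hf x
  have hi := avg_int (fun u => max (f x u) 0) (by fun_prop) (fun u => (max_abs _).trans (hfb x u)) (ct l)
  -- integrability of the weighted function on the window
  have hj : IntegrableOn (fun u => max (f x u) 0 * Real.exp (-(u / 2))) (Icc l (l + Real.log l)) := by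
    refine Integrable.mono' (g := fun u => Real.exp u * Real.exp (-(u / 2))) ?_ ?_ ?_
    · exact (by fun_prop : Continuous fun u => Real.exp u * Real.exp (-(u / 2))).continuousOn.integrableOn_compact
        isCompact_Icc
    · exact (by fun_prop : Measurable fun u => max (f x u) 0 * Real.exp (-(u / 2))).aestronglyMeasurable
    · refine ae_of_all _ fun u => ?_
      rw [norm_mul, Real.norm_eq_abs, Real.norm_eq_abs, abs_of_pos (Real.exp_pos _)]
      exact mul_le_mul_of_nonneg_right ((max_abs _).trans (hfb x u)) (Real.exp_pos _).le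
  have e1 : ∫ v in Icc (-a) a, max (f x (ct l - v)) 0 * kp v =
      ∫ u in Icc l (l + Real.log l), max (f x u) 0 * kp (ct l - u) := by
    rw [← integral_indicator measurableSet_Icc, ← integral_indicator measurableSet_Icc,
      ← integral_sub_left_eq_self (fun v => (Icc (-a) a).indicator (fun v => max (f x (ct l - v)) 0 * kp v) v)
        volume (ct l)]
    refine integral_congr_ae (ae_of_all _ fun u => ?_)
    simp only
    by_cases hu : u ∈ Icc l (l + Real.log l)
    · have hv : ct l - u ∈ Icc (-a) a := by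
        unfold ct
        constructor <;> linarith [hu.1, hu.2]
      rw [indicator_of_mem hu, indicator_of_mem hv, sub_sub_cancel]
    · have hv : ct l - u ∉ Icc (-a) a := by
        intro hv
        apply hu
        unfold ct at hv
        constructor <;> linarith [hv.1, hv.2]
      rw [indicator_of_notMem hu, indicator_of_notMem hv]
  have e2 : ∫ u in Icc l (l + Real.log l), max (f x u) 0 * kp (ct l - u) ≤
      ∫ u in Icc l (l + Real.log l), 4 * C0 * Real.exp (ct l / 2) * (max (f x u) 0 * Real.exp (-(u / 2))) := by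
    refine integral_mono_of_nonneg (ae_of_all _ fun u => ?_) (hj.const_mul _) (ae_of_all _ fun u => ?_)
    · exact mul_nonneg (le_max_right _ _) (kp_nonneg _)
    · have h5 := kp_exp (ct l - u)
      have h6 : Real.exp ((ct l - u) / 2) = Real.exp (ct l / 2) * Real.exp (-(u / 2)) := by
        rw [← Real.exp_add]; congr 1; ring
      rw [h6] at h5
      calc max (f x u) 0 * kp (ct l - u) ≤ max (f x u) 0 * (4 * C0 * (Real.exp (ct l / 2) * Real.exp (-(u / 2)))) :=
            mul_le_mul_of_nonneg_left h5 (le_max_right _ _)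
        _ = _ := by ring
  rw [integral_const_mul] at e2
  rw [e1] at k1
  have k2 := k1.trans e2
  set Q : ℝ := ∫ u in Icc l (l + Real.log l), max (f x u) 0 * Real.exp (-(u / 2)) with hQ
  have hQ0 : 0 ≤ Q := integral_nonneg fun u => mul_nonneg (le_max_right _ _) (Real.exp_pos _).le
  have hE := Real.exp_pos (ct l / 2)
  have k3 : c / 2 ≤ 4 * C0 * Q := by
    refine le_of_mul_le_mul_right ?_ hE
    calc c / 2 * Real.exp (ct l / 2) ≤ 4 * C0 * Real.exp (ct l / 2) * Q := k2
      _ = _ := by ring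
  rw [div_le_iff₀ (by positivity)]
  linarith

/-- from twisted averages to positive parts, uniformly in a family -/
theorem coreU {X ι : Type*} [Fintype ι] (f : X → ℝ → ℝ) (hf : ∀ x, Measurable (f x))
    (hfb : ∀ x u, |f x u| ≤ Real.exp u) (C : ℝ)
    (havg : ∀ᶠ t : ℝ in atTop, ∀ x, |∫ v : ℝ, f x (t - v) * kp v| ≤ C)
    (h : ι → ℝ → ℂ) (hh : ∀ j, DK (h j)) (c : ℝ) (hc : 0 < c)
    (hlow : ∀ᶠ t : ℝ in atTop, ∀ x, ∃ j, c * Real.exp (t / 2) ≤ ‖∫ v : ℝ, (f x (t - v) : ℂ) * h j v‖) :
    ∃ c' : ℝ, 0 < c' ∧ ∀ᶠ t : ℝ in atTop, ∀ x, c' * Real.exp (t / 2) ≤ ∫ v : ℝ, max (f x (t - v)) 0 * kp v := by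
  have hB : ∃ B : ℝ, 0 ≤ B ∧ ∀ j v, ‖h j v‖ ≤ B * W v := by
    choose b hb0 hb using fun j => (hh j).bd
    refine ⟨∑ j, b j, Finset.sum_nonneg fun j _ => hb0 j, fun j v => (hb j v).trans ?_⟩
    exact mul_le_mul_of_nonneg_right (Finset.single_le_sum (fun i _ => hb0 i) (Finset.mem_univ j)) (W_pos v).le
  obtain ⟨B, hB0, hb⟩ := hB
  have hB1 : 0 < B + 1 := by linarith
  refine ⟨c / (8 * (B + 1)), by positivity, ?_⟩
  have hexp : Tendsto (fun t : ℝ => Real.exp (t / 2)) atTop atTop :=
    Real.tendsto_exp_atTop.comp (tendsto_id.atTop_div_const (by norm_num))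
  filter_upwards [havg, hlow, hexp.eventually_ge_atTop (4 * (B + 1) * C / c)] with t h1 h2 h3 x
  obtain ⟨j, hj⟩ := h2 x
  have hfx := hf x
  have i1 := avg_int (f x) hfx (hfb x) t
  have i2 : Integrable (fun v => |f x (t - v)| * kp v) :=
    avg_int (fun u => |f x u|) (by fun_prop) (fun u => by rw [abs_abs]; exact hfb x u) t
  have i3 : Integrable (fun v => max (f x (t - v)) 0 * kp v) :=
    avg_int (fun u => max (f x u) 0) (by fun_prop) (fun u => (max_abs _).trans (hfb x u)) t
  have e1 : ∫ v, |f x (t - v)| * kp v = 2 * (∫ v, max (f x (t - v)) 0 * kp v) - ∫ v, f x (t - v) * kp v := by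
    rw [← integral_const_mul, ← integral_sub (i3.const_mul 2) i1]
    refine integral_congr_ae (ae_of_all _ fun v => ?_)
    simp only
    have := part_id 1 (Or.inl rfl) (f x (t - v))
    rw [one_mul] at this
    rw [this]
    ring
  have e4 : ‖∫ v : ℝ, (f x (t - v) : ℂ) * h j v‖ ≤ (2 * (B + 1)) * ∫ v, |f x (t - v)| * kp v := by
    rw [← integral_const_mul]
    refine norm_integral_le_of_norm_le (i2.const_mul _) (ae_of_all _ fun v => ?_)
    rw [norm_mul, Complex.norm_real, Real.norm_eq_abs]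
    have h5 : ‖h j v‖ ≤ 2 * (B + 1) * kp v := by
      refine (hb j v).trans ?_
      have h6 := (kp_bounds v).1
      have h7 := W_pos v
      nlinarith
    calc |f x (t - v)| * ‖h j v‖ ≤ |f x (t - v)| * (2 * (B + 1) * kp v) :=
          mul_le_mul_of_nonneg_left h5 (abs_nonneg _)
      _ = _ := by ring
  have e5 := (abs_le.1 (h1 x)).1
  rw [e1] at e4
  have e6 := hj.trans e4
  set Y : ℝ := ∫ v, max (f x (t - v)) 0 * kp v with hY
  set Z : ℝ := ∫ v, f x (t - v) * kp v with hZ
  rw [div_le_iff₀ hc] at h3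
  have e7 : c * Real.exp (t / 2) ≤ 4 * (B + 1) * Y + 2 * (B + 1) * C := by nlinarith
  rw [div_mul_eq_mul_div, div_le_iff₀ (by positivity)]
  nlinarith

end

end Pool.Agent.W5h80.JO
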