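import Pool.Agent.H313R3.TK.H

/-!
# Sums over the squares of primitives: exact main terms
-/

set_option autoImplicit false
set_option maxHeartbeats 4000000

open Complex MeasureTheory Filter Topology Set
open H313.TK


namespace Pool.Agent.W5h80.JO

noncomputable section

/-- the mass of the comparison function -/
def D2 : ℝ := ∫ x : ℝ, Real.exp (-(2 * |x|))

theorem D2_nonneg : 0 ≤ D2 := integral_nonneg fun x => (Real.exp_pos _).le

theorem r_int {r : ℝ → ℂ} (hr : Measurable r) {C : ℝ} (hb : ∀ z, ‖r z‖ ≤ C * Real.exp (-(2 * |z|))) :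
    Integrable r :=
  ((int_exp_abs 2 two_pos).const_mul C).mono' hr.aestronglyMeasurable (ae_of_all _ hb)

theorem r_norm {r : ℝ → ℂ} {C : ℝ} (hb : ∀ z, ‖r z‖ ≤ C * Real.exp (-(2 * |z|))) (hC : 0 ≤ C) (w : ℝ → ℂ)
    (hw : ∀ z, ‖w z‖ ≤ 1) (S : Set ℝ) (hS : MeasurableSet S) : ‖∫ z in S, w z * r z‖ ≤ C * D2 := by
  have hi : Integrable (fun x : ℝ => C * Real.exp (-(2 * |x|))) := (int_exp_abs 2 (by norm_num)).const_mul C
  refine (norm_integral_le_of_norm_le (g := fun x : ℝ => C * Real.exp (-(2 * |x|))) hi.integrableOn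
    (ae_of_all _ fun z => ?_)).trans ?_
  · rw [norm_mul]
    have := mul_le_mul (hw z) (hb z) (norm_nonneg _) zero_le_one
    rwa [one_mul] at this
  · refine (setIntegral_le_integral hi (ae_of_all _ fun x => by positivity)).trans (le_of_eq ?_)
    rw [integral_const_mul]
    rfl

/-- the sum over squares as an integral -/
theorem floor_sum {r : ℝ → ℂ} (hr : Measurable r) {C : ℝ} (hC : 0 ≤ C)
    (hb : ∀ z, ‖r z‖ ≤ C * Real.exp (-(2 * |z|))) (t : ℝ) :
    HasSum (fun m : ℕ => ∫ z in Iic (t - 2 * Real.log ((m : ℝ) + 1)), r z)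
      (∫ z in Iic t, ((⌊Real.exp ((t - z) / 2)⌋₊ : ℕ) : ℂ) * r z) := by
  set F : ℕ → ℝ → ℂ := fun m => (Iic (t - 2 * Real.log ((m : ℝ) + 1))).indicator r with hF
  have hi := r_int hr hb
  have hFi : ∀ m, Integrable (F m) := fun m => hi.indicator measurableSet_Iic
  have hFn : ∀ m, ∫ z, ‖F m z‖ ≤ C * Real.exp (2 * t) / 2 * (1 / ((m : ℝ) + 1) ^ 2) := by
    intro m
    set w : ℝ := t - 2 * Real.log ((m : ℝ) + 1) with hw
    have e1 : ∫ z, ‖F m z‖ = ∫ z in Iic w, ‖r z‖ := by
      rw [← integral_indicator measurableSet_Iic]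
      refine integral_congr_ae (ae_of_all _ fun z => ?_)
      simp only [hF]
      exact norm_indicator_eq_indicator_norm _ _
    rw [e1]
    have e2 : ∫ z in Iic w, ‖r z‖ ≤ ∫ z in Iic w, C * Real.exp (2 * z) := by
      refine setIntegral_mono_on hi.norm.integrableOn ((integrableOn_exp_mul_Iic two_pos w).const_mul C)
        measurableSet_Iic fun z _ => (hb z).trans ?_
      refine mul_le_mul_of_nonneg_left (Real.exp_le_exp.2 ?_) hC
      have := neg_abs_le z
      linarith
    refine e2.trans ?_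
    rw [integral_const_mul, integral_exp_mul_Iic two_pos]
    have hm : (1:ℝ) ≤ (m : ℝ) + 1 := by
      have : (0:ℝ) ≤ m := Nat.cast_nonneg m
      linarith
    have e3 : Real.exp (2 * w) ≤ Real.exp (2 * t) * (1 / ((m : ℝ) + 1) ^ 2) := by
      have e4 : Real.exp (2 * w) = Real.exp (2 * t) * (1 / ((m : ℝ) + 1) ^ 4) := by
        rw [hw, show 2 * (t - 2 * Real.log ((m : ℝ) + 1)) = 2 * t - ((4 : ℕ) : ℝ) * Real.log ((m : ℝ) + 1) by
          push_cast; ring, Real.exp_sub, Real.exp_nat_mul, Real.exp_log (by positivity)]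
        ring
      rw [e4]
      refine mul_le_mul_of_nonneg_left ?_ (Real.exp_pos _).le
      refine one_div_le_one_div_of_le (by positivity) ?_
      exact pow_le_pow_right₀ hm (by norm_num)
    calc C * (Real.exp (2 * w) / 2) = C / 2 * Real.exp (2 * w) := by ring
      _ ≤ C / 2 * (Real.exp (2 * t) * (1 / ((m : ℝ) + 1) ^ 2)) := mul_le_mul_of_nonneg_left e3 (by positivity)
      _ = _ := by ring
  have hFs : Summable (fun m => ∫ z, ‖F m z‖) :=
    Summable.of_nonneg_of_le (fun m => integral_nonneg fun z => norm_nonneg _) hFn (sum_sq.mul_left _)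
  have key := hasSum_integral_of_summable_integral_norm hFi hFs
  have e1 : ∀ m, ∫ z, F m z = ∫ z in Iic (t - 2 * Real.log ((m : ℝ) + 1)), r z := fun m =>
    integral_indicator measurableSet_Iic
  simp only [e1] at key
  have e2 : ∀ z : ℝ, ∑' m, F m z = ((⌊Real.exp ((t - z) / 2)⌋₊ : ℕ) : ℂ) * r z := by
    intro z
    set N := ⌊Real.exp ((t - z) / 2)⌋₊ with hN
    have e3 : ∀ m : ℕ, F m z = if m < N then r z else 0 := by
      intro m
      have e4 : z ≤ t - 2 * Real.log ((m : ℝ) + 1) ↔ m < N := by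
        rw [← Nat.succ_le_iff, hN, Nat.le_floor_iff (Real.exp_pos _).le, ← Real.log_le_iff_le_exp (by positivity)]
        push_cast
        constructor <;> intro h <;> linarith
      simp only [hF]
      by_cases h : m < N
      · rw [if_pos h, indicator_of_mem]
        exact e4.2 h
      · rw [if_neg h, indicator_of_notMem]
        intro h2
        exact h (e4.1 h2)
    simp_rw [e3]
    rw [tsum_eq_sum (s := Finset.range N) (fun m hm => if_neg (by simpa using hm)),
      Finset.sum_congr rfl (fun m hm => if_pos (Finset.mem_range.1 hm)), Finset.sum_const, Finset.card_range,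
      nsmul_eq_mul]
  have e5 : ∫ z, ∑' m, F m z = ∫ z in Iic t, ((⌊Real.exp ((t - z) / 2)⌋₊ : ℕ) : ℂ) * r z := by
    rw [integral_congr_ae (ae_of_all _ e2)]
    refine (setIntegral_eq_integral_of_forall_compl_eq_zero fun z hz => ?_).symm
    have hz2 : t < z := not_le.1 hz
    have e6 : ⌊Real.exp ((t - z) / 2)⌋₊ = 0 := by
      rw [Nat.floor_eq_zero, Real.exp_lt_one_iff]
      linarith
    rw [e6]
    simp
  rwa [e5] at key

/-- the sum over squares, with main term -/
theorem sq_int {r : ℝ → ℂ} (hr : Measurable r) {C : ℝ} (hC : 0 ≤ C)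
    (hb : ∀ z, ‖r z‖ ≤ C * Real.exp (-(2 * |z|))) (t : ℝ) :
    ‖(∫ z in Iic t, ((⌊Real.exp ((t - z) / 2)⌋₊ : ℕ) : ℂ) * r z) -
      Real.exp (t / 2) * ∫ z in Iic t, cexp (-(1 / 2 : ℂ) * z) * r z‖ ≤ C * D2 := by
  have hi := r_int hr hb
  have hex : ∀ z : ℝ, cexp (-(1 / 2 : ℂ) * z) = ((Real.exp (-(z / 2)) : ℝ) : ℂ) := by
    intro z
    push_cast
    congr 1
    ring
  have hj : Integrable (fun z : ℝ => cexp (-(1 / 2 : ℂ) * z) * r z) := by
    refine ((int_exp_abs 1 one_pos).const_mul C).mono' ?_ (ae_of_all _ fun z => ?_)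
    · exact (by fun_prop : Measurable fun z : ℝ => cexp (-(1 / 2 : ℂ) * z) * r z).aestronglyMeasurable
    · rw [norm_mul, hex, Complex.norm_real, Real.norm_eq_abs, abs_of_pos (Real.exp_pos _)]
      calc Real.exp (-(z / 2)) * ‖r z‖ ≤ Real.exp |z| * (C * Real.exp (-(2 * |z|))) := by
            refine mul_le_mul (Real.exp_le_exp.2 ?_) (hb z) (norm_nonneg _) (Real.exp_pos _).le
            have := neg_abs_le z
            have := abs_nonneg z
            linarith
        _ = C * (Real.exp |z| * Real.exp (-(2 * |z|))) := by ring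
        _ = _ := by rw [← Real.exp_add]; congr 2; ring
  have hk : Integrable (fun z : ℝ => ((⌊Real.exp ((t - z) / 2)⌋₊ : ℕ) : ℂ) * r z) := by
    refine ((int_exp_abs 1 one_pos).const_mul (Real.exp (t / 2) * C)).mono' ?_ (ae_of_all _ fun z => ?_)
    · have hfl : Measurable (fun z : ℝ => ⌊Real.exp ((t - z) / 2)⌋₊) :=
        Nat.measurable_floor.comp (by fun_prop)
      have hfl2 : Measurable (fun z : ℝ => ((⌊Real.exp ((t - z) / 2)⌋₊ : ℕ) : ℂ)) :=
        (measurable_of_countable (fun n : ℕ => (n : ℂ))).comp hfl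
      exact (hfl2.mul hr).aestronglyMeasurable
    · rw [norm_mul, Complex.norm_natCast]
      calc ((⌊Real.exp ((t - z) / 2)⌋₊ : ℕ) : ℝ) * ‖r z‖ ≤
            (Real.exp (t / 2) * Real.exp |z|) * (C * Real.exp (-(2 * |z|))) := by
            refine mul_le_mul ?_ (hb z) (norm_nonneg _) (by positivity)
            refine (Nat.floor_le (Real.exp_pos _).le).trans ?_
            rw [← Real.exp_add]
            refine Real.exp_le_exp.2 ?_
            have := neg_abs_le z
            have := abs_nonneg z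
            linarith
        _ = Real.exp (t / 2) * C * (Real.exp |z| * Real.exp (-(2 * |z|))) := by ring
        _ = _ := by rw [← Real.exp_add]; congr 2; ring
  have hcm : (Real.exp (t / 2) : ℂ) * ∫ z in Iic t, cexp (-(1 / 2 : ℂ) * z) * r z =
      ∫ z in Iic t, (Real.exp (t / 2) : ℂ) * (cexp (-(1 / 2 : ℂ) * z) * r z) := (integral_const_mul _ _).symm
  rw [hcm, ← integral_sub hk.integrableOn (hj.const_mul _).integrableOn]
  have e1 : ∀ z : ℝ, ((⌊Real.exp ((t - z) / 2)⌋₊ : ℕ) : ℂ) * r z -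
      (Real.exp (t / 2) : ℂ) * (cexp (-(1 / 2 : ℂ) * z) * r z) =
      ((((⌊Real.exp ((t - z) / 2)⌋₊ : ℕ) : ℝ) - Real.exp ((t - z) / 2) : ℝ) : ℂ) * r z := by
    intro z
    have e2 : (Real.exp (t / 2) : ℂ) * cexp (-(1 / 2 : ℂ) * z) = ((Real.exp ((t - z) / 2) : ℝ) : ℂ) := by
      rw [hex, ← Complex.ofReal_mul, ← Real.exp_add]
      congr 2
      ring
    rw [← mul_assoc, e2, Complex.ofReal_sub, Complex.ofReal_natCast]
    ring
  simp_rw [e1]
  refine r_norm hb hC (fun z => ((((⌊Real.exp ((t - z) / 2)⌋₊ : ℕ) : ℝ) - Real.exp ((t - z) / 2) : ℝ) : ℂ)) ?_ _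
    measurableSet_Iic
  intro z
  rw [Complex.norm_real, Real.norm_eq_abs, abs_le]
  have g1 := Nat.floor_le (Real.exp_pos ((t - z) / 2)).le
  have g2 := Nat.lt_floor_add_one (Real.exp ((t - z) / 2))
  constructor <;> linarith

/-- the tail of the transform at `1/2` -/
theorem half_tail {r : ℝ → ℂ} (hr : Measurable r) {C : ℝ} (hC : 0 ≤ C)
    (hb : ∀ z, ‖r z‖ ≤ C * Real.exp (-(2 * |z|))) (t : ℝ) :
    ‖(Real.exp (t / 2) : ℂ) * (∫ z in Iic t, cexp (-(1 / 2 : ℂ) * z) * r z) -
      Real.exp (t / 2) * ∫ z : ℝ, cexp (-(1 / 2 : ℂ) * z) * r z‖ ≤ C * D2 := by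
  have hex : ∀ z : ℝ, cexp (-(1 / 2 : ℂ) * z) = ((Real.exp (-(z / 2)) : ℝ) : ℂ) := by
    intro z
    push_cast
    congr 1
    ring
  have hj : Integrable (fun z : ℝ => cexp (-(1 / 2 : ℂ) * z) * r z) := by
    refine ((int_exp_abs 1 one_pos).const_mul C).mono' ?_ (ae_of_all _ fun z => ?_)
    · exact (by fun_prop : Measurable fun z : ℝ => cexp (-(1 / 2 : ℂ) * z) * r z).aestronglyMeasurable
    · rw [norm_mul, hex, Complex.norm_real, Real.norm_eq_abs, abs_of_pos (Real.exp_pos _)]
      calc Real.exp (-(z / 2)) * ‖r z‖ ≤ Real.exp |z| * (C * Real.exp (-(2 * |z|))) := by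
            refine mul_le_mul (Real.exp_le_exp.2 ?_) (hb z) (norm_nonneg _) (Real.exp_pos _).le
            have := neg_abs_le z
            have := abs_nonneg z
            linarith
        _ = C * (Real.exp |z| * Real.exp (-(2 * |z|))) := by ring
        _ = _ := by rw [← Real.exp_add]; congr 2; ring
  have e2 := intervalIntegral.integral_Iic_add_Ioi (b := t) hj.integrableOn hj.integrableOn
  have e3 : (Real.exp (t / 2) : ℂ) * (∫ z in Iic t, cexp (-(1 / 2 : ℂ) * z) * r z) -
      Real.exp (t / 2) * ∫ z : ℝ, cexp (-(1 / 2 : ℂ) * z) * r z =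
      -∫ z in Ioi t, (if t < z then ((Real.exp ((t - z) / 2) : ℝ) : ℂ) else 0) * r z := by
    rw [← e2]
    have e4 : ∫ z in Ioi t, (if t < z then ((Real.exp ((t - z) / 2) : ℝ) : ℂ) else 0) * r z =
        (Real.exp (t / 2) : ℂ) * ∫ z in Ioi t, cexp (-(1 / 2 : ℂ) * z) * r z := by
      rw [← integral_const_mul]
      refine setIntegral_congr_fun measurableSet_Ioi fun z hz => ?_
      rw [if_pos (show t < z from hz), ← mul_assoc]
      congr 1
      rw [hex, ← Complex.ofReal_mul, ← Real.exp_add]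
      congr 2
      ring
    rw [e4]
    ring
  rw [e3, norm_neg]
  refine r_norm hb hC (fun z => if t < z then ((Real.exp ((t - z) / 2) : ℝ) : ℂ) else 0) ?_ _ measurableSet_Ioi
  intro z
  split_ifs with h
  · rw [Complex.norm_real, Real.norm_eq_abs, abs_of_pos (Real.exp_pos _)]
    exact Real.exp_le_one_iff.2 (by linarith)
  · simp

end

end Pool.Agent.W5h80.JO
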