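import Pool.Agent.W5h80.JO.A
import Pool.Agent.W5h80.JO.L1

/-!
# Resolvent identities for the kernels
-/

set_option autoImplicit false
set_option maxHeartbeats 4000000

open Complex MeasureTheory Filter Topology Set
open H313.TK

namespace Pool.Agent.W5h80.JO

noncomputable section

theorem Ist_deriv {ρ : ℂ} {g : ℝ → ℂ} (hc : Continuous g)
    (hi : ∀ v, IntegrableOn (fun z : ℝ => cexp (-ρ * z) * g z) (Iic v)) (v : ℝ) :
    HasDerivAt (Ist ρ g) (ρ * Ist ρ g v + g v) v := by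
  have h1 := prim_cont (by fun_prop : Continuous fun z : ℝ => cexp (-ρ * z) * g z) hi v
  have h2 : HasDerivAt (fun v : ℝ => cexp (ρ * v)) (cexp (ρ * v) * ρ) v := by
    have h3 : HasDerivAt (fun z : ℝ => ρ * (z : ℂ)) (ρ * 1) v := ((hasDerivAt_id v).ofReal_comp).const_mul ρ
    refine h3.cexp.congr_deriv ?_
    ring
  refine (h2.mul h1).congr_deriv ?_
  unfold Ist
  have h4 := tw_cancel ρ v (g v)
  rw [h4]
  ring

theorem half_Ist_deriv {ρ : ℂ} {g : ℝ → ℂ} (hc : Continuous g)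
    (hi : ∀ v, IntegrableOn (fun z : ℝ => cexp (-ρ * z) * g z) (Iic v)) (v : ℝ) :
    HasDerivAt (fun v : ℝ => cexp (-(1 / 2 : ℂ) * v) * Ist ρ g v)
      (cexp (-(1 / 2 : ℂ) * v) * g v - (1 / 2 - ρ) * (cexp (-(1 / 2 : ℂ) * v) * Ist ρ g v)) v := by
  have h2 : HasDerivAt (fun v : ℝ => cexp (-(1 / 2 : ℂ) * v)) (cexp (-(1 / 2 : ℂ) * v) * (-(1 / 2))) v := by
    have h3 : HasDerivAt (fun z : ℝ => -(1 / 2 : ℂ) * (z : ℂ)) (-(1 / 2 : ℂ) * 1) v :=
      ((hasDerivAt_id v).ofReal_comp).const_mul (-(1 / 2 : ℂ))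
    refine h3.cexp.congr_deriv ?_
    ring
  refine (h2.mul (Ist_deriv hc hi v)).congr_deriv ?_
  ring

/-- the transform at `1/2` of the twisted kernel -/
theorem half_DK {g : ℝ → ℂ} (hg : DK g) (ρ : ℂ) (hβ : |ρ.re| ≤ 2) (h0 : ∫ z : ℝ, cexp (-ρ * z) * g z = 0)
    (hne : ρ ≠ 1 / 2) :
    ∫ v : ℝ, cexp (-(1 / 2 : ℂ) * v) * Ist ρ g v = (∫ v : ℝ, cexp (-(1 / 2 : ℂ) * v) * g v) / (1 / 2 - ρ) := by
  have hD := Ist_DK hg ρ hβ h0
  have hh : |((1 / 2 : ℂ)).re| ≤ 2 := by norm_num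
  have i1 := tw_int hg (1 / 2) hh
  have i2 := tw_int hD (1 / 2) hh
  have key := integral_eq_zero_of_hasDerivAt_of_integrable
    (fun v => half_Ist_deriv hg.cont (fun v => (tw_int hg ρ hβ).integrableOn) v) (i1.sub (i2.const_mul (1 / 2 - ρ))) i2
  rw [integral_sub i1 (i2.const_mul _), integral_const_mul] at key
  have hne2 : (1 / 2 - ρ) ≠ 0 := sub_ne_zero.2 (Ne.symm hne)
  rw [eq_div_iff hne2]
  linear_combination -key

/-- the incomplete transform at `1/2` of the twisted building block -/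
theorem half_QQ {g : ℝ → ℂ} (hg : QQ g) (ρ : ℂ) (hρ : ρ.re < 2) (hne : ρ ≠ 1 / 2) (t : ℝ) :
    ∫ v in Iic t, cexp (-(1 / 2 : ℂ) * v) * Ist ρ g v =
      ((∫ v in Iic t, cexp (-(1 / 2 : ℂ) * v) * g v) - cexp (-(1 / 2 : ℂ) * t) * Ist ρ g t) / (1 / 2 - ρ) := by
  have hQ := Ist_QQ hg ρ hρ
  have hh : ((1 / 2 : ℂ)).re < 2 := by norm_num
  have i1 := hg.int (1 / 2) hh t
  have i2 := hQ.int (1 / 2) hh t
  have hlim : Tendsto (fun v : ℝ => cexp (-(1 / 2 : ℂ) * v) * Ist ρ g v) atBot (𝓝 0) := by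
    obtain ⟨C, hC, hb⟩ := hQ.bd 0
    refine squeeze_zero_norm' (a := fun v : ℝ => C * Real.exp (3 / 2 * v)) ?_ ?_
    · filter_upwards [eventually_le_atBot (0:ℝ)] with v hv
      rw [norm_mul, norm_tw]
      have h1 := hb v hv
      have h2 : (1 / 2 : ℂ).re = 1 / 2 := by norm_num
      rw [h2]
      calc Real.exp (-(1 / 2) * v) * ‖Ist ρ g v‖ ≤ Real.exp (-(1 / 2) * v) * (C * Real.exp (2 * v)) :=
            mul_le_mul_of_nonneg_left h1 (Real.exp_pos _).le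
        _ = C * (Real.exp (-(1 / 2) * v) * Real.exp (2 * v)) := by ring
        _ = _ := by rw [← Real.exp_add]; congr 2; ring
    · have h3 : Tendsto (fun v : ℝ => Real.exp (3 / 2 * v)) atBot (𝓝 0) :=
        Real.tendsto_exp_atBot.comp (tendsto_id.const_mul_atBot (by norm_num))
      have := h3.const_mul C
      rwa [mul_zero] at this
  have key := integral_Iic_of_hasDerivAt_of_tendsto' (a := t)
    (fun v _ => half_Ist_deriv hg.cont (hg.int ρ hρ) v) (i1.sub (i2.const_mul (1 / 2 - ρ))) hlim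
  rw [integral_sub i1 (i2.const_mul _), integral_const_mul, sub_zero] at key
  have hne2 : (1 / 2 - ρ) ≠ 0 := sub_ne_zero.2 (Ne.symm hne)
  rw [eq_div_iff hne2]
  linear_combination -key

end

end Pool.Agent.W5h80.JO
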