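import Pool.Agent.W5h80.JO.L2
import Pool.Agent.W5h38.ML.D

/-!
# Partial sums of `ζ(2ρ)` for a zero on the critical line
-/

set_option autoImplicit false
set_option maxHeartbeats 4000000

open Complex MeasureTheory Filter Topology Set
open H313.TK
open Pool.Agent.W5h38.ML (ll LL Zr za Z_dec liou ll_meas abs_ll_le zeta_half_ne)

namespace Pool.Agent.W5h80.JO

noncomputable section

theorem floor_facts (t : ℝ) (ht : 0 ≤ t) : 1 ≤ ⌊Real.exp (t / 2)⌋₊ ∧ (⌊Real.exp (t / 2)⌋₊ : ℝ) ≤ Real.exp (t / 2) ∧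
    Real.exp (t / 2) < ⌊Real.exp (t / 2)⌋₊ + 1 ∧ Real.exp (t / 2) ≤ 2 * ⌊Real.exp (t / 2)⌋₊ ∧
    0 ≤ t - 2 * Real.log ⌊Real.exp (t / 2)⌋₊ ∧
    (t - 2 * Real.log ⌊Real.exp (t / 2)⌋₊) * Real.exp (t / 2) ≤ 4 := by
  set Y : ℝ := Real.exp (t / 2) with hY
  have hY1 : 1 ≤ Y := Real.one_le_exp (by linarith)
  have hY0 : 0 < Y := by linarith
  set N : ℕ := ⌊Y⌋₊ with hN
  have hN1 : 1 ≤ N := Nat.le_floor (by simpa using hY1)
  have hN1' : (1:ℝ) ≤ N := by exact_mod_cast hN1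
  have hN0 : (0:ℝ) < N := by linarith
  have hNY : (N : ℝ) ≤ Y := Nat.floor_le hY0.le
  have hYN : Y < N + 1 := Nat.lt_floor_add_one Y
  have hlogY : Real.log Y = t / 2 := Real.log_exp _
  have h1 := Real.log_le_log hN0 hNY
  have h2 : Real.log Y - Real.log N ≤ 1 / N := by
    rw [← Real.log_div hY0.ne' hN0.ne']
    refine (Real.log_le_sub_one_of_pos (by positivity)).trans ?_
    rw [div_sub_one hN0.ne']
    exact div_le_div_of_nonneg_right (by linarith) hN0.le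
  rw [hlogY] at h1 h2
  have h3 : 0 ≤ t - 2 * Real.log N := by linarith
  refine ⟨hN1, hNY, hYN, by linarith, h3, ?_⟩
  have h4 : t - 2 * Real.log N ≤ 2 / N := by
    have : 2 / (N:ℝ) = 2 * (1 / N) := by ring
    rw [this]
    linarith
  calc (t - 2 * Real.log N) * Y ≤ (2 / N) * (2 * N) :=
        mul_le_mul h4 (by linarith) hY0.le (by positivity)
    _ = 4 := by field_simp; norm_num

/-- the partial sums of `ζ(2ρ)` -/
theorem Zr_asy (ρ : ℂ) (hre : ρ.re = 1 / 2) (hne : ρ ≠ 1 / 2) : ∃ C : ℝ, 0 ≤ C ∧ ∀ t : ℝ, 0 ≤ t →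
    ‖(cexp (ρ * t) * Zr (2 * ρ) ⌊Real.exp (t / 2)⌋₊ - (⌊Real.exp (t / 2)⌋₊ : ℂ)) -
      (cexp (ρ * t) * riemannZeta (2 * ρ) - Real.exp (t / 2) * (2 * ρ / (2 * ρ - 1)))‖ ≤ C := by
  have hs1 : 2 * ρ ≠ 1 := by
    intro h
    apply hne
    rw [← h]; ring
  have hs1' : 2 * ρ - 1 ≠ 0 := sub_ne_zero.2 hs1
  have hs : 1 ≤ (2 * ρ).re := by simp [hre]
  refine ⟨2 * ‖2 * ρ‖ + 4 * |ρ.im| / ‖2 * ρ - 1‖ + 1, by positivity, fun t ht => ?_⟩
  obtain ⟨hN1, hNY, hYN, hY2, hx0, hx4⟩ := floor_facts t ht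
  set Y : ℝ := Real.exp (t / 2) with hY
  have hY0 : 0 < Y := Real.exp_pos _
  set N : ℕ := ⌊Y⌋₊ with hN
  have hN0 : (0:ℝ) < N := by exact_mod_cast hN1
  set x : ℝ := t - 2 * Real.log N with hx
  have hnorm : ‖cexp (ρ * t)‖ = Y := by
    rw [norm_tw', hre, hY]
    congr 1
    ring
  -- first term
  have e1 : ‖cexp (ρ * t) * (Zr (2 * ρ) N - riemannZeta (2 * ρ) + (N : ℂ) ^ (1 - 2 * ρ) / (2 * ρ - 1))‖ ≤
      2 * ‖2 * ρ‖ := by
    rw [norm_mul, hnorm]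
    have h := Z_dec (2 * ρ) hs hs1 N hN1
    calc Y * ‖Zr (2 * ρ) N - riemannZeta (2 * ρ) + (N : ℂ) ^ (1 - 2 * ρ) / (2 * ρ - 1)‖ ≤ (2 * N) * (‖2 * ρ‖ / N) :=
          mul_le_mul hY2 h (norm_nonneg _) (by positivity)
      _ = _ := by field_simp
  -- second term
  have e2 : cexp (ρ * t) * (N : ℂ) ^ (1 - 2 * ρ) = (Y : ℂ) * cexp (I * ((ρ.im * x : ℝ) : ℂ)) := by
    have hNc : (N : ℂ) ≠ 0 := by exact_mod_cast hN0.ne'
    rw [Complex.cpow_def_of_ne_zero hNc, ← Complex.exp_add, hY, Complex.ofReal_exp, ← Complex.exp_add]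
    congr 1
    have hlog : Complex.log (N : ℂ) = ((Real.log N : ℝ) : ℂ) := by
      rw [← Complex.ofReal_natCast, ← Complex.ofReal_log hN0.le]
    have hρ : ρ = 1 / 2 + I * ρ.im := by
      apply Complex.ext
      · simp [hre]
      · simp
    rw [hlog, hx]
    have : ρ * t + (Real.log N : ℂ) * (1 - 2 * ρ) = (1 / 2 + I * ρ.im) * t + (Real.log N : ℂ) * (1 - 2 * (1 / 2 + I * ρ.im)) := by
      rw [← hρ]
    rw [this]
    push_cast
    ring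
  have e3 : ‖cexp (ρ * t) * (N : ℂ) ^ (1 - 2 * ρ) - Y‖ ≤ 4 * |ρ.im| := by
    have h1 : cexp (ρ * t) * (N : ℂ) ^ (1 - 2 * ρ) - Y = (Y : ℂ) * (cexp (I * ((ρ.im * x : ℝ) : ℂ)) - 1) := by
      rw [e2]; ring
    rw [h1, norm_mul, Complex.norm_real, Real.norm_eq_abs, abs_of_pos hY0]
    have h2 : ‖cexp (I * ((ρ.im * x : ℝ) : ℂ)) - 1‖ ≤ |ρ.im| * x := by
      refine (Real.norm_exp_I_mul_ofReal_sub_one_le).trans (le_of_eq ?_)
      rw [Real.norm_eq_abs, abs_mul, abs_of_nonneg hx0]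
    calc Y * ‖cexp (I * ((ρ.im * x : ℝ) : ℂ)) - 1‖ ≤ Y * (|ρ.im| * x) := mul_le_mul_of_nonneg_left h2 hY0.le
      _ = |ρ.im| * (x * Y) := by ring
      _ ≤ |ρ.im| * 4 := mul_le_mul_of_nonneg_left hx4 (abs_nonneg _)
      _ = _ := by ring
  have e4 : ‖((N : ℂ) - Y)‖ ≤ 1 := by
    rw [← Complex.ofReal_natCast, ← Complex.ofReal_sub, Complex.norm_real, Real.norm_eq_abs, abs_le]
    constructor <;> linarith
  have e5 : (cexp (ρ * t) * Zr (2 * ρ) N - (N : ℂ)) -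
      (cexp (ρ * t) * riemannZeta (2 * ρ) - Y * (2 * ρ / (2 * ρ - 1))) =
      cexp (ρ * t) * (Zr (2 * ρ) N - riemannZeta (2 * ρ) + (N : ℂ) ^ (1 - 2 * ρ) / (2 * ρ - 1)) -
      (cexp (ρ * t) * (N : ℂ) ^ (1 - 2 * ρ) - Y) / (2 * ρ - 1) - ((N : ℂ) - Y) := by
    have h7 : (2 * ρ / (2 * ρ - 1) : ℂ) = 1 + 1 / (2 * ρ - 1) := by
      rw [div_eq_iff hs1', add_mul, one_mul, div_mul_cancel₀ _ hs1']
      ring
    rw [h7]
    ring
  rw [e5]
  have e6 : ‖(cexp (ρ * t) * (N : ℂ) ^ (1 - 2 * ρ) - Y) / (2 * ρ - 1)‖ ≤ 4 * |ρ.im| / ‖2 * ρ - 1‖ := by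
    rw [norm_div]
    exact div_le_div_of_nonneg_right e3 (norm_nonneg _)
  refine (norm_sub_le _ _).trans (add_le_add ((norm_sub_le _ _).trans (add_le_add e1 e6)) e4)

/-- the sum of the main parts -/
theorem main_sum (ρ α : ℂ) (t : ℝ) (ht : 0 ≤ t) :
    HasSum (fun m : ℕ => if 0 ≤ t - 2 * Real.log ((m : ℝ) + 1) then
        α * (cexp (ρ * ((t - 2 * Real.log ((m : ℝ) + 1) : ℝ) : ℂ)) - 1) / ρ else 0)
      (α / ρ * (cexp (ρ * t) * Zr (2 * ρ) ⌊Real.exp (t / 2)⌋₊ - (⌊Real.exp (t / 2)⌋₊ : ℂ))) := by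
  set Y : ℝ := Real.exp (t / 2) with hY
  have hY0 : 0 < Y := Real.exp_pos _
  set N : ℕ := ⌊Y⌋₊ with hN
  have hlogY : Real.log Y = t / 2 := Real.log_exp _
  have hiff : ∀ m : ℕ, 0 ≤ t - 2 * Real.log ((m : ℝ) + 1) ↔ m < N := by
    intro m
    rw [← Nat.succ_le_iff, hN, Nat.le_floor_iff hY0.le, hY, ← Real.log_le_iff_le_exp (by positivity)]
    push_cast
    constructor <;> intro h <;> linarith
  have h1 : α / ρ * (cexp (ρ * t) * Zr (2 * ρ) N - (N : ℂ)) = ∑ m ∈ Finset.range N,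
      (if 0 ≤ t - 2 * Real.log ((m : ℝ) + 1) then
        α * (cexp (ρ * ((t - 2 * Real.log ((m : ℝ) + 1) : ℝ) : ℂ)) - 1) / ρ else 0) := by
    have h2 : (N : ℂ) = ∑ m ∈ Finset.range N, (1:ℂ) := by simp
    unfold Zr
    rw [Finset.mul_sum]
    rw [h2]
    rw [← Finset.sum_sub_distrib, Finset.mul_sum]
    refine Finset.sum_congr rfl fun m hm => ?_
    rw [if_pos ((hiff m).2 (Finset.mem_range.1 hm))]
    have hm0 : ((m + 1 : ℕ) : ℂ) ≠ 0 := by exact_mod_cast (by omega : m + 1 ≠ 0)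
    have e1 : cexp (ρ * ((t - 2 * Real.log ((m : ℝ) + 1) : ℝ) : ℂ)) = cexp (ρ * t) * za (2 * ρ) m := by
      unfold za
      rw [Complex.cpow_def_of_ne_zero hm0, ← Complex.exp_add]
      congr 1
      have : Complex.log ((m + 1 : ℕ) : ℂ) = ((Real.log ((m : ℝ) + 1) : ℝ) : ℂ) := by
        rw [Complex.ofReal_log (by positivity)]
        push_cast
        rfl
      rw [this]
      push_cast
      ring
    rw [e1]
    ring
  rw [h1]
  refine hasSum_sum_of_ne_finset_zero fun m hm => ?_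
  rw [Finset.mem_range] at hm
  rw [if_neg]
  rw [hiff]
  exact hm

end

end Pool.Agent.W5h80.JO
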