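import Pool.Agent.W5h80.JO.L3
import Pool.Agent.W5h80.JO.G

/-!
# The Liouville function, minus its bias, is a signal
-/

set_option autoImplicit false
set_option maxHeartbeats 4000000

open Complex MeasureTheory Filter Topology Set
open H313.TK
open Pool.Agent.W5h38.ML (ll LL Zr za Z_dec liou ll_meas abs_ll_le zeta_half_ne)

namespace Pool.Agent.W5h80.JO

noncomputable section

/-- `ζ(1/2)` as a real number -/
def zh : ℝ := (riemannZeta (1 / 2)).re

theorem zh_eq : riemannZeta (1 / 2) = (zh : ℂ) := by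
  have h := riemannZeta_conj (1 / 2)
  have h1 : (starRingEnd ℂ) (1 / 2 : ℂ) = 1 / 2 := by
    rw [map_div₀, map_one, map_ofNat]
  rw [h1] at h
  exact (Complex.conj_eq_iff_re.1 h.symm).symm

theorem zh_ne : zh ≠ 0 := by
  intro h
  apply zeta_half_ne
  rw [zh_eq, h, Complex.ofReal_zero]

/-- the bias of the Liouville function -/
def bb (u : ℝ) : ℝ := if 0 ≤ u then Real.exp (u / 2) / zh else 0

/-- the Liouville function without its bias -/
def EL (u : ℝ) : ℝ := ll u - bb u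

theorem bb_meas : Measurable bb := by
  unfold bb
  exact Measurable.ite measurableSet_Ici (by fun_prop) measurable_const

theorem bb_bd (u : ℝ) : |bb u| ≤ 1 / |zh| * Real.exp u := by
  unfold bb
  split_ifs with h
  · rw [abs_div, abs_of_pos (Real.exp_pos _), div_eq_mul_one_div, mul_comm]
    exact mul_le_mul_of_nonneg_left (Real.exp_le_exp.2 (by linarith)) (by positivity)
  · rw [abs_zero]
    positivity

/-- the average of the bias -/
theorem bias {h : ℝ → ℂ} (hh : DK h) : ∃ C : ℝ, 0 ≤ C ∧ ∀ t : ℝ,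
    ‖(∫ v : ℝ, (bb (t - v) : ℂ) * h v) - (Real.exp (t / 2) : ℂ) / zh * ∫ v : ℝ, cexp (-(1 / 2 : ℂ) * v) * h v‖ ≤ C := by
  have hz := zh_ne
  have hhalf : |((1 / 2 : ℂ)).re| ≤ 2 := by norm_num
  have i1 := tw_int hh (1 / 2) hhalf
  have i0 : Integrable h := by
    have := tw_int hh 0 (by norm_num)
    simpa using this
  refine ⟨1 / |zh| * ∫ v, ‖h v‖, by have : 0 ≤ ∫ v, ‖h v‖ := integral_nonneg fun v => norm_nonneg _
                                    positivity, fun t => ?_⟩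
  have i2 := DK_int bb_meas (by positivity) bb_bd hh t
  rw [← integral_const_mul, ← integral_sub i2 (i1.const_mul _), ← integral_const_mul]
  refine norm_integral_le_of_norm_le (i0.norm.const_mul _) (ae_of_all _ fun v => ?_)
  have hex : cexp (-(1 / 2 : ℂ) * v) = ((Real.exp (-(v / 2)) : ℝ) : ℂ) := by
    push_cast
    congr 1
    ring
  have e1 : (Real.exp (t / 2) : ℂ) / zh * (cexp (-(1 / 2 : ℂ) * v) * h v) = ((Real.exp ((t - v) / 2) / zh : ℝ) : ℂ) * h v := by
    have : Real.exp ((t - v) / 2) = Real.exp (t / 2) * Real.exp (-(v / 2)) := by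
      rw [← Real.exp_add]; congr 1; ring
    rw [this, hex]
    push_cast
    ring
  rw [e1, ← sub_mul, norm_mul, ← Complex.ofReal_sub, Complex.norm_real, Real.norm_eq_abs]
  refine mul_le_mul_of_nonneg_right ?_ (norm_nonneg _)
  unfold bb
  split_ifs with hv
  · rw [sub_self, abs_zero]; positivity
  · rw [zero_sub, abs_neg, abs_div, abs_of_pos (Real.exp_pos _)]
    refine div_le_div_of_nonneg_right ?_ (abs_nonneg _)
    push Not at hv
    exact Real.exp_le_one_iff.2 (by linarith)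

theorem qc_meas : Measurable qc := by
  unfold qc
  exact Complex.measurable_ofReal.comp qq_cont.measurable

theorem qc_bd (z : ℝ) : ‖qc z‖ ≤ 48 * Real.exp (-(2 * |z|)) := qq_bd z

/-- the average of the Liouville function against the positive kernel -/
theorem ll_kc (t : ℝ) : ‖(∫ v : ℝ, (ll (t - v) : ℂ) * kc v) - Real.exp (t / 2) * qh (1 / 2)‖ ≤ 48 * D2 + 48 * D2 := by
  have h1 := liou qc_QQ (by rw [← kc_eq]; exact kc_DK) t
  rw [← kc_eq] at h1
  have h2 := floor_sum qc_meas (by norm_num) qc_bd t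
  have h3 := h1.unique h2
  rw [h3]
  have h4 := sq_int qc_meas (by norm_num) qc_bd t
  have h5 := half_tail qc_meas (by norm_num) qc_bd t
  have h6 : ∫ z : ℝ, cexp (-(1 / 2 : ℂ) * z) * qc z = qh (1 / 2) := rfl
  rw [h6] at h5
  have := (norm_add_le _ _).trans (add_le_add h4 h5)
  rwa [sub_add_sub_cancel] at this

theorem Kh_half : Kh (1 / 2) = zh * qh (1 / 2) := by
  rw [Kh_eq (1 / 2) (by norm_num) (by norm_num) (by norm_num), zh_eq]

theorem EL_meas : Measurable EL := ll_meas.sub bb_meas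

theorem EL_bd (u : ℝ) : |EL u| ≤ (1 + 1 / |zh|) * Real.exp u := by
  have h1 := abs_sub (ll u) (bb u)
  have h2 := abs_ll_le u
  have h3 := bb_bd u
  unfold EL
  linarith

theorem EL_split {h : ℝ → ℂ} (hh : DK h) (t : ℝ) : ∫ v : ℝ, (EL (t - v) : ℂ) * h v =
    (∫ v : ℝ, (ll (t - v) : ℂ) * h v) - ∫ v : ℝ, (bb (t - v) : ℂ) * h v := by
  rw [← integral_sub (DK_int ll_meas zero_le_one (fun u => by rw [one_mul]; exact abs_ll_le u) hh t)
    (DK_int bb_meas (by positivity) bb_bd hh t)]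
  refine integral_congr_ae (ae_of_all _ fun v => ?_)
  simp only [EL]
  push_cast
  ring

theorem EL_avg : ∃ C : ℝ, 0 ≤ C ∧ ∀ t : ℝ, 0 ≤ t → |∫ v : ℝ, EL (t - v) * kp v| ≤ C := by
  obtain ⟨C, hC, hb⟩ := bias kc_DK
  have hD := D2_nonneg
  refine ⟨48 * D2 + 48 * D2 + C, by positivity, fun t _ => ?_⟩
  have h2 : ∫ v : ℝ, (EL (t - v) : ℂ) * kc v = ((∫ v : ℝ, EL (t - v) * kp v : ℝ) : ℂ) := by
    rw [← integral_complex_ofReal]
    refine integral_congr_ae (ae_of_all _ fun v => ?_)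
    simp [kc]
  have h3 : |∫ v : ℝ, EL (t - v) * kp v| = ‖∫ v : ℝ, (EL (t - v) : ℂ) * kc v‖ := by
    rw [h2, Complex.norm_real, Real.norm_eq_abs]
  rw [h3, EL_split kc_DK]
  have h4 := ll_kc t
  have h5 := hb t
  have h6 : ∫ v : ℝ, cexp (-(1 / 2 : ℂ) * v) * kc v = Kh (1 / 2) := rfl
  have hz : (zh : ℂ) ≠ 0 := by exact_mod_cast zh_ne
  rw [h6, Kh_half, div_mul_eq_mul_div, mul_div_assoc, mul_div_cancel_left₀ _ hz] at h5
  have e : (∫ v : ℝ, (ll (t - v) : ℂ) * kc v) - ∫ v : ℝ, (bb (t - v) : ℂ) * kc v =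
      ((∫ v : ℝ, (ll (t - v) : ℂ) * kc v) - Real.exp (t / 2) * qh (1 / 2)) -
      ((∫ v : ℝ, (bb (t - v) : ℂ) * kc v) - Real.exp (t / 2) * qh (1 / 2)) := by ring
  rw [e]
  exact (norm_sub_le _ _).trans (add_le_add h4 h5)

end

end Pool.Agent.W5h80.JO
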