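import Pool.Agent.W5h80.JO.K
import Mathlib

/-!
# Signals, and averages of their translates against measures with bounded support
-/

set_option autoImplicit false
set_option maxHeartbeats 4000000

open Complex MeasureTheory Filter Topology Set
open H313.TK

namespace Pool.Agent.W5h80.JO

noncomputable section

/-- functions of `log y` whose averages see the zeros on the critical line -/
structure Sig (E : ℝ → ℝ) : Prop where
  meas : Measurable E
  bd : ∃ B : ℝ, 0 ≤ B ∧ ∀ u, |E u| ≤ B * Real.exp u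
  avg : ∃ C : ℝ, 0 ≤ C ∧ ∀ t : ℝ, 0 ≤ t → |∫ v : ℝ, E (t - v) * kp v| ≤ C
  asy : ∀ ρ : ℂ, riemannZeta ρ = 0 → ρ.re = 1 / 2 → ∃ h : ℝ → ℂ, DK h ∧ ∃ A : ℂ, A ≠ 0 ∧ ∃ C : ℝ, 0 ≤ C ∧
    ∀ t : ℝ, 0 ≤ t → ‖(∫ v : ℝ, (E (t - v) : ℂ) * h v) - A * cexp (ρ * t)‖ ≤ C * (1 + t)

/-- finite measures of mass at most `m` carried by `[-R, R]` -/
structure Bdd (R m : ℝ) (ν : Measure ℝ) : Prop where
  fin : IsFiniteMeasure ν
  supp : ν (Icc (-R) R)ᶜ = 0
  mass : ν.real univ ≤ m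

/-- average of the translates -/
def Av (E : ℝ → ℝ) (ν : Measure ℝ) (u : ℝ) : ℝ := ∫ l, E (u + l) ∂ν

/-- the transform -/
def Tr (ν : Measure ℝ) (s : ℂ) : ℂ := ∫ l, cexp (s * l) ∂ν

theorem Bdd.ae {R m : ℝ} {ν : Measure ℝ} (h : Bdd R m ν) : ∀ᵐ l ∂ν, l ∈ Icc (-R) R := by
  rw [ae_iff]
  exact h.supp

theorem Bdd.m0 {R m : ℝ} {ν : Measure ℝ} (h : Bdd R m ν) : 0 ≤ m := measureReal_nonneg.trans h.mass

theorem norm_int_le {R m : ℝ} {ν : Measure ℝ} (h : Bdd R m ν) (F : ℝ → ℂ) (C : ℝ) (hC : 0 ≤ C)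
    (hF : ∀ l ∈ Icc (-R) R, ‖F l‖ ≤ C) : ‖∫ l, F l ∂ν‖ ≤ C * m := by
  have := h.fin
  refine (norm_integral_le_of_norm_le_const (C := C) ?_).trans (mul_le_mul_of_nonneg_left h.mass hC)
  filter_upwards [h.ae] with l hl using hF l hl

theorem abs_int_le {R m : ℝ} {ν : Measure ℝ} (h : Bdd R m ν) (F : ℝ → ℝ) (C : ℝ) (hC : 0 ≤ C)
    (hF : ∀ l ∈ Icc (-R) R, |F l| ≤ C) : |∫ l, F l ∂ν| ≤ C * m := by
  have := h.fin
  have := (norm_integral_le_of_norm_le_const (μ := ν) (f := F) (C := C) (by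
    filter_upwards [h.ae] with l hl
    rw [Real.norm_eq_abs]
    exact hF l hl)).trans (mul_le_mul_of_nonneg_left h.mass hC)
  rwa [Real.norm_eq_abs] at this

theorem Av_meas {E : ℝ → ℝ} (hE : Measurable E) (ν : Measure ℝ) [IsFiniteMeasure ν] : Measurable (Av E ν) := by
  have h1 : Measurable (fun p : ℝ × ℝ => E (p.1 + p.2)) := by fun_prop
  have h2 := h1.stronglyMeasurable.integral_prod_right' (ν := ν)
  exact h2.measurable

theorem Av_bd {E : ℝ → ℝ} {B : ℝ} (hB : 0 ≤ B) (hb : ∀ u, |E u| ≤ B * Real.exp u) {R m : ℝ} {ν : Measure ℝ}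
    (h : Bdd R m ν) (u : ℝ) : |Av E ν u| ≤ B * Real.exp R * m * Real.exp u := by
  have h1 := abs_int_le h (fun l => E (u + l)) (B * Real.exp (u + R)) (by positivity) (fun l hl => by
    refine (hb _).trans (mul_le_mul_of_nonneg_left (Real.exp_le_exp.2 ?_) hB)
    linarith [hl.2])
  refine h1.trans (le_of_eq ?_)
  rw [Real.exp_add]
  ring

/-- interchange of the average and the kernel -/
theorem Av_swap {E : ℝ → ℝ} (hE : Measurable E) {B : ℝ} (hB : 0 ≤ B) (hb : ∀ u, |E u| ≤ B * Real.exp u) {R m : ℝ}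
    {ν : Measure ℝ} (h : Bdd R m ν) {k : ℝ → ℂ} (hk : DK k) (t : ℝ) :
    ∫ v : ℝ, (Av E ν (t - v) : ℂ) * k v = ∫ l, (∫ v : ℝ, (E (t + l - v) : ℂ) * k v) ∂ν := by
  have := h.fin
  obtain ⟨C, hC, hkb⟩ := hk.bd
  have hkc := hk.cont
  set F : ℝ → ℝ → ℂ := fun v l => (E (t + l - v) : ℂ) * k v with hF
  have hFm : Measurable (Function.uncurry F) := by
    have : Measurable (fun p : ℝ × ℝ => (E (t + p.2 - p.1) : ℂ) * k p.1) := by
      have hkm := hkc.measurable
      fun_prop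
    exact this
  have hFi : Integrable (Function.uncurry F) (volume.prod ν) := by
    have hg : Integrable (fun p : ℝ × ℝ => (B * C * 4 * Real.exp (t + R)) * Real.exp (-(1 * |p.1|))) (volume.prod ν) := by
      have := ((int_exp_abs 1 one_pos).const_mul (B * C * 4 * Real.exp (t + R))).comp_fst ν
      exact this
    refine hg.mono' hFm.aestronglyMeasurable ?_
    have hae : ∀ᵐ p ∂((volume : Measure ℝ).prod ν), p.2 ∈ Icc (-R) R :=
      Measure.quasiMeasurePreserving_snd.ae h.ae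
    filter_upwards [hae] with p hp
    show ‖(E (t + p.2 - p.1) : ℂ) * k p.1‖ ≤ _
    rw [norm_mul, Complex.norm_real, Real.norm_eq_abs]
    have h1 := kpW (t + R) p.1
    have h2 : Real.exp (t + p.2 - p.1) ≤ Real.exp (t + R - p.1) := Real.exp_le_exp.2 (by linarith [hp.2])
    have hW := W_pos p.1
    calc |E (t + p.2 - p.1)| * ‖k p.1‖ ≤ (B * Real.exp (t + R - p.1)) * (C * W p.1) :=
          mul_le_mul ((hb _).trans (mul_le_mul_of_nonneg_left h2 hB)) (hkb _) (norm_nonneg _) (by positivity)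
      _ = B * C * (Real.exp (t + R - p.1) * W p.1) := by ring
      _ ≤ B * C * (4 * Real.exp (t + R) * Real.exp (-(1 * |p.1|))) := mul_le_mul_of_nonneg_left h1 (by positivity)
      _ = _ := by ring
  have key := integral_integral_swap hFi
  have e1 : ∀ v : ℝ, ∫ l, F v l ∂ν = (Av E ν (t - v) : ℂ) * k v := by
    intro v
    simp only [hF]
    rw [integral_mul_const, integral_complex_ofReal]
    congr 2
    unfold Av
    refine integral_congr_ae (ae_of_all _ fun l => ?_)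
    simp only
    congr 1
    ring
  rw [← key]
  exact integral_congr_ae (ae_of_all _ fun v => (e1 v).symm)

theorem Av_asy {E : ℝ → ℝ} (hE : Measurable E) {B : ℝ} (hB : 0 ≤ B) (hb : ∀ u, |E u| ≤ B * Real.exp u) {R m : ℝ}
    (hR : 0 ≤ R) {ν : Measure ℝ} (h : Bdd R m ν) {k : ℝ → ℂ} (hk : DK k) {ρ A : ℂ} {C : ℝ} (hC : 0 ≤ C)
    (hasy : ∀ t : ℝ, 0 ≤ t → ‖(∫ v : ℝ, (E (t - v) : ℂ) * k v) - A * cexp (ρ * t)‖ ≤ C * (1 + t)) (t : ℝ) (ht : R ≤ t) :
    ‖(∫ v : ℝ, (Av E ν (t - v) : ℂ) * k v) - A * Tr ν ρ * cexp (ρ * t)‖ ≤ C * (1 + t + R) * m := by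
  have := h.fin
  rw [Av_swap hE hB hb h hk]
  -- measurability of the inner integral
  obtain ⟨Ck, hCk, hkb⟩ := hk.bd
  have hkc := hk.cont
  have hin : AEStronglyMeasurable (fun l : ℝ => ∫ v : ℝ, (E (t + l - v) : ℂ) * k v) ν := by
    have hm : Measurable (fun p : ℝ × ℝ => (E (t + p.1 - p.2) : ℂ) * k p.2) := by
      have hkm := hkc.measurable
      fun_prop
    exact (hm.stronglyMeasurable.integral_prod_right' (ν := volume)).aestronglyMeasurable
  have hexpc : Continuous (fun l : ℝ => A * cexp (ρ * (t + l : ℝ))) := by fun_prop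
  have hI2 : Integrable (fun l : ℝ => A * cexp (ρ * (t + l : ℝ))) ν := by
    obtain ⟨K, hK⟩ := (isCompact_Icc (a := -R) (b := R)).exists_bound_of_continuousOn hexpc.continuousOn
    refine Integrable.of_bound hexpc.aestronglyMeasurable K ?_
    filter_upwards [h.ae] with l hl using hK l hl
  have hd : ∀ l ∈ Icc (-R) R, ‖(∫ v : ℝ, (E (t + l - v) : ℂ) * k v) - A * cexp (ρ * (t + l : ℝ))‖ ≤ C * (1 + t + R) := by
    intro l hl
    refine (hasy (t + l) (by linarith [hl.1])).trans ?_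
    exact mul_le_mul_of_nonneg_left (by linarith [hl.2]) hC
  have hI1 : Integrable (fun l : ℝ => ∫ v : ℝ, (E (t + l - v) : ℂ) * k v) ν := by
    have h3 : Integrable (fun l : ℝ => (∫ v : ℝ, (E (t + l - v) : ℂ) * k v) - A * cexp (ρ * (t + l : ℝ))) ν := by
      refine Integrable.of_bound (hin.sub hexpc.aestronglyMeasurable) (C * (1 + t + R)) ?_
      filter_upwards [h.ae] with l hl using hd l hl
    have := h3.add hI2
    refine this.congr (ae_of_all _ fun l => ?_)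
    simp
  have e1 : A * Tr ν ρ * cexp (ρ * t) = ∫ l, A * cexp (ρ * (t + l : ℝ)) ∂ν := by
    unfold Tr
    rw [← integral_const_mul, ← integral_mul_const]
    refine integral_congr_ae (ae_of_all _ fun l => ?_)
    simp only
    rw [mul_assoc, ← Complex.exp_add]
    congr 2
    push_cast
    ring
  rw [e1, ← integral_sub hI1 hI2]
  exact norm_int_le h _ _ (mul_nonneg hC (by linarith)) hd

/-- the average against the positive kernel -/
theorem Av_avg {E : ℝ → ℝ} (hE : Measurable E) {B : ℝ} (hB : 0 ≤ B) (hb : ∀ u, |E u| ≤ B * Real.exp u) {R m : ℝ}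
    {ν : Measure ℝ} (h : Bdd R m ν) {C : ℝ} (hC : 0 ≤ C)
    (havg : ∀ t : ℝ, 0 ≤ t → |∫ v : ℝ, E (t - v) * kp v| ≤ C) (t : ℝ) (ht : R ≤ t) :
    |∫ v : ℝ, Av E ν (t - v) * kp v| ≤ C * m := by
  have := h.fin
  have h1 := Av_swap hE hB hb h kc_DK t
  have h2 : ∫ v : ℝ, (Av E ν (t - v) : ℂ) * kc v = ((∫ v : ℝ, Av E ν (t - v) * kp v : ℝ) : ℂ) := by
    rw [← integral_complex_ofReal]
    refine integral_congr_ae (ae_of_all _ fun v => ?_)
    simp [kc]
  have h3 : ∀ l : ℝ, ∫ v : ℝ, (E (t + l - v) : ℂ) * kc v = ((∫ v : ℝ, E (t + l - v) * kp v : ℝ) : ℂ) := by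
    intro l
    rw [← integral_complex_ofReal]
    refine integral_congr_ae (ae_of_all _ fun v => ?_)
    simp [kc]
  simp_rw [h3] at h1
  rw [h2, integral_complex_ofReal] at h1
  have h4 : ∫ v : ℝ, Av E ν (t - v) * kp v = ∫ l, (∫ v : ℝ, E (t + l - v) * kp v) ∂ν := by exact_mod_cast h1
  rw [h4]
  exact abs_int_le h _ _ hC fun l hl => havg (t + l) (by linarith [hl.1])

end

end Pool.Agent.W5h80.JO
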