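import Pool.Agent.W5h80.JO.G
import Pool.Agent.W5h80.JO.Z

/-!
# Transforms of measures with bounded support, and a finite set of zeros
-/

set_option autoImplicit false
set_option maxHeartbeats 4000000

open Complex MeasureTheory Filter Topology Set ProbabilityTheory
open H313.TK

namespace Pool.Agent.W5h80.JO

noncomputable section

theorem Tr_eq (ν : Measure ℝ) (s : ℂ) : Tr ν s = complexMGF id ν s := rfl

theorem expset {R m : ℝ} {ν : Measure ℝ} (h : Bdd R m ν) : integrableExpSet id ν = univ := by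
  have := h.fin
  refine eq_univ_of_forall fun t => ?_
  exact integrable_exp_mul_of_mem_Icc (a := -R) (b := R) aemeasurable_id h.ae

theorem Tr_diff {R m : ℝ} {ν : Measure ℝ} (h : Bdd R m ν) : Differentiable ℂ (Tr ν) := by
  intro z
  have h1 : z.re ∈ interior (integrableExpSet id ν) := by
    rw [expset h, interior_univ]
    exact mem_univ _
  exact (hasDerivAt_complexMGF h1).differentiableAt

theorem Tr_norm {R m : ℝ} (hR : 0 ≤ R) {ν : Measure ℝ} (h : Bdd R m ν) (s : ℂ) : ‖Tr ν s‖ ≤ m * Real.exp (R * ‖s‖) := by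
  have := norm_int_le h (fun l => cexp (s * l)) (Real.exp (R * ‖s‖)) (Real.exp_pos _).le (fun l hl => by
    rw [Complex.norm_exp]
    refine Real.exp_le_exp.2 ?_
    have h1 : (s * (l : ℂ)).re = s.re * l := by simp
    rw [h1]
    have h2 : |l| ≤ R := abs_le.2 hl
    calc s.re * l ≤ |s.re * l| := le_abs_self _
      _ = |s.re| * |l| := abs_mul _ _
      _ ≤ ‖s‖ * R := mul_le_mul (Complex.abs_re_le_norm s) h2 (abs_nonneg _) (norm_nonneg _)
      _ = _ := mul_comm _ _)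
  rw [mul_comm]
  exact this

theorem exists_zero_of_ne {R m : ℝ} (hR : 0 ≤ R) {ν₁ ν₂ : Measure ℝ} (h1 : Bdd R m ν₁) (h2 : Bdd R m ν₂)
    (hne : ν₁ ≠ ν₂) : ∃ ρ : ℂ, riemannZeta ρ = 0 ∧ ρ.re = 1 / 2 ∧ Dt ν₁ ν₂ ρ ≠ 0 := by
  have f1 := h1.fin
  have f2 := h2.fin
  have hc : ∃ c : ℂ, Dt ν₁ ν₂ c ≠ 0 := by
    by_contra hcon
    push Not at hcon
    apply hne
    refine Measure.ext_of_complexMGF_id_eq (funext fun s => ?_)
    have := hcon s
    unfold Dt at this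
    rw [sub_eq_zero] at this
    exact this
  obtain ⟨c, hc⟩ := hc
  have hm := h1.m0
  refine zero_of_type (P := Dt ν₁ ν₂) ((Tr_diff h1).sub (Tr_diff h2)) (2 * m + 1) R (by positivity) hR (fun s => ?_) c hc
  have g1 := Tr_norm hR h1 s
  have g2 := Tr_norm hR h2 s
  have g3 : ‖Dt ν₁ ν₂ s‖ ≤ ‖Tr ν₁ s‖ + ‖Tr ν₂ s‖ := norm_sub_le _ _
  have g4 := Real.exp_pos (R * ‖s‖)
  nlinarith

/-- a finite set of zeros which sees every member of a compact family -/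
theorem sel {Y : Type*} [TopologicalSpace Y] (K : Set Y) (hK : IsCompact K) (Q : Y → ℂ → ℂ)
    (hc : ∀ s, ContinuousOn (fun y => Q y s) K)
    (hz : ∀ y ∈ K, ∃ ρ : ℂ, riemannZeta ρ = 0 ∧ ρ.re = 1 / 2 ∧ Q y ρ ≠ 0) :
    ∃ (F : Finset ℂ) (η : ℝ), (∀ ρ ∈ F, riemannZeta ρ = 0 ∧ ρ.re = 1 / 2) ∧ 0 < η ∧
      ∀ y ∈ K, ∃ ρ ∈ F, η ≤ ‖Q y ρ‖ := by
  classical
  have hz' : ∀ y : Y, ∃ ρ : ℂ, y ∈ K → (riemannZeta ρ = 0 ∧ ρ.re = 1 / 2 ∧ Q y ρ ≠ 0) := by
    intro y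
    by_cases hy : y ∈ K
    · obtain ⟨ρ, h⟩ := hz y hy
      exact ⟨ρ, fun _ => h⟩
    · exact ⟨0, fun h => absurd h hy⟩
  choose p hp using hz'
  set U : Y → Set Y := fun y => {y' | ‖Q y (p y)‖ / 2 < ‖Q y' (p y)‖} with hU
  have hUn : ∀ y ∈ K, U y ∈ 𝓝[K] y := by
    intro y hy
    have h1 : 0 < ‖Q y (p y)‖ := norm_pos_iff.2 (hp y hy).2.2
    have h2 : ContinuousWithinAt (fun y' => ‖Q y' (p y)‖) K y := (hc (p y) y hy).norm
    exact h2.eventually (lt_mem_nhds (by linarith))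
  obtain ⟨t, htK, hcov⟩ := hK.elim_nhdsWithin_subcover U hUn
  have hmin : ∃ η : ℝ, 0 < η ∧ ∀ y ∈ t, η ≤ ‖Q y (p y)‖ / 2 := by
    rcases t.eq_empty_or_nonempty with h | h
    · exact ⟨1, one_pos, fun y hy => by rw [h] at hy; simp at hy⟩
    · obtain ⟨y₀, hy₀, hmin⟩ := t.exists_min_image (fun y => ‖Q y (p y)‖ / 2) h
      exact ⟨_, by have := norm_pos_iff.2 (hp y₀ (htK y₀ hy₀)).2.2; positivity, hmin⟩
  obtain ⟨η, hη, hmin⟩ := hmin
  refine ⟨t.image p, η, ?_, hη, fun y hy => ?_⟩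
  · intro ρ hρ
    obtain ⟨y, hy, rfl⟩ := Finset.mem_image.1 hρ
    exact ⟨(hp y (htK y hy)).1, (hp y (htK y hy)).2.1⟩
  · have := hcov hy
    simp only [mem_iUnion] at this
    obtain ⟨y', hy', hyy⟩ := this
    exact ⟨p y', Finset.mem_image_of_mem p hy', (hmin y' hy').trans (le_of_lt hyy)⟩

end

end Pool.Agent.W5h80.JO
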